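import Mathlib.Logic.Equiv.PartialEquiv
import Mathlib.Topology.Sheaves.Presheaf
import Mathlib.Tactic.ENatToNat
import Mathlib.Tactic.Monotonicity.Lemmas
import Mathlib.Data.Int.ConditionallyCompleteOrder
import Mathlib.Data.Int.Star
import Mathlib.Algebra.Order.Ring.Star
import Mathlib.Data.Nat.Factorial.BigOperators
import Mathlib.Tactic.Bound
import Mathlib.Data.List.GetD
import Mathlib.Combinatorics.Enumerative.DoubleCounting
import Mathlib.RingTheory.WittVector.IsPoly
import Mathlib.Tactic.Algebra.Basic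
import Mathlib.Tactic.ReduceModChar

-- ======== part 0: formerly Pool.Agent.MP_45d82d_co.Basic
section MrgPart0

/-!
Basic notions for 1324-avoiding permutations: avoidance, inversions, symmetries, cuts and the
insertion of a point.
-/

set_option autoImplicit false

open Finset Equiv

namespace Pool.Agent.MP_45d82d_co

variable {n : ℕ}

/-- The permutation avoids the pattern 1324. -/
def Avoid (σ : Perm (Fin n)) : Prop :=
  ¬ ∃ a b c d : Fin n, a < b ∧ b < c ∧ c < d ∧ σ a < σ c ∧ σ c < σ b ∧ σ b < σ d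

/-- The set of inversions. -/
def invs (σ : Perm (Fin n)) : Finset (Fin n × Fin n) :=
  univ.filter fun p => p.1 < p.2 ∧ σ p.2 < σ p.1

open Classical in
/-- The 1324-avoiders of length `n` with `k` inversions. -/
noncomputable def Av (n k : ℕ) : Finset (Perm (Fin n)) :=
  univ.filter fun σ => Avoid σ ∧ (invs σ).card = k

lemma mem_Av {k : ℕ} {σ : Perm (Fin n)} : σ ∈ Av n k ↔ Avoid σ ∧ (invs σ).card = k := by
  simp [Av]

lemma mem_invs {σ : Perm (Fin n)} {p : Fin n × Fin n} :
    p ∈ invs σ ↔ p.1 < p.2 ∧ σ p.2 < σ p.1 := by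
  simp [invs]

/-- Reverse-complement. -/
def rc (σ : Perm (Fin n)) : Perm (Fin n) := Fin.revPerm * σ * Fin.revPerm

lemma rc_apply (σ : Perm (Fin n)) (i : Fin n) : rc σ i = (σ i.rev).rev := rfl

@[simp] lemma rc_rc (σ : Perm (Fin n)) : rc (rc σ) = σ := by
  ext i; simp [rc_apply]

lemma rc_inv (σ : Perm (Fin n)) : (rc σ)⁻¹ = rc σ⁻¹ := by
  rw [inv_eq_iff_mul_eq_one]
  ext i; simp [rc_apply]

lemma rc_injective : Function.Injective (rc : Perm (Fin n) → Perm (Fin n)) := by
  intro a b h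
  rw [← rc_rc a, h, rc_rc]

lemma Avoid.inv {σ : Perm (Fin n)} (h : Avoid σ) : Avoid σ⁻¹ := by
  rintro ⟨a, b, c, d, h1, h2, h3, h4, h5, h6⟩
  exact h ⟨σ⁻¹ a, σ⁻¹ c, σ⁻¹ b, σ⁻¹ d, h4, h5, h6, by simpa using h1, by simpa using h2,
    by simpa using h3⟩

lemma Avoid.rc {σ : Perm (Fin n)} (h : Avoid σ) : Avoid (rc σ) := by
  rintro ⟨a, b, c, d, h1, h2, h3, h4, h5, h6⟩
  simp only [rc_apply, Fin.rev_lt_rev] at h4 h5 h6
  exact h ⟨d.rev, c.rev, b.rev, a.rev, Fin.rev_lt_rev.2 h3, Fin.rev_lt_rev.2 h2,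
    Fin.rev_lt_rev.2 h1, h6, h5, h4⟩

lemma card_invs_inv (σ : Perm (Fin n)) : (invs σ⁻¹).card = (invs σ).card := by
  symm
  refine card_equiv ((Equiv.prodComm _ _).trans (σ.prodCongr σ)) fun p => ?_
  simp [mem_invs, and_comm]

lemma card_invs_rc (σ : Perm (Fin n)) : (invs (rc σ)).card = (invs σ).card := by
  symm
  refine card_equiv ((Equiv.prodComm _ _).trans (Fin.revPerm.prodCongr Fin.revPerm)) fun p => ?_
  simp [mem_invs, rc_apply]

lemma inv_mem_Av {k : ℕ} {σ : Perm (Fin n)} (h : σ ∈ Av n k) : σ⁻¹ ∈ Av n k := by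
  rw [mem_Av] at h ⊢
  exact ⟨h.1.inv, by rw [card_invs_inv, h.2]⟩

lemma rc_mem_Av {k : ℕ} {σ : Perm (Fin n)} (h : σ ∈ Av n k) : rc σ ∈ Av n k := by
  rw [mem_Av] at h ⊢
  exact ⟨h.1.rc, by rw [card_invs_rc, h.2]⟩

lemma card_filter_inv (k : ℕ) (P : Perm (Fin n) → Prop) [DecidablePred P] :
    ((Av n k).filter P).card = ((Av n k).filter fun σ => P σ⁻¹).card := by
  refine card_nbij' (fun σ => σ⁻¹) (fun σ => σ⁻¹) ?_ ?_ ?_ ?_
  · intro σ h
    simp only [coe_filter, Set.mem_setOf_eq, inv_inv] at h ⊢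
    exact ⟨inv_mem_Av h.1, h.2⟩
  · intro σ h
    simp only [coe_filter, Set.mem_setOf_eq] at h ⊢
    exact ⟨inv_mem_Av h.1, h.2⟩
  · intro σ _; simp
  · intro σ _; simp

lemma card_filter_rc (k : ℕ) (P : Perm (Fin n) → Prop) [DecidablePred P] :
    ((Av n k).filter P).card = ((Av n k).filter fun σ => P (rc σ)).card := by
  refine card_nbij' rc rc ?_ ?_ ?_ ?_
  · intro σ h
    simp only [coe_filter, Set.mem_setOf_eq, rc_rc] at h ⊢
    exact ⟨rc_mem_Av h.1, h.2⟩
  · intro σ h
    simp only [coe_filter, Set.mem_setOf_eq] at h ⊢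
    exact ⟨rc_mem_Av h.1, h.2⟩
  · intro σ _; simp
  · intro σ _; simp

lemma card_lt_val (σ : Perm (Fin n)) (m : ℕ) (hm : m ≤ n) :
    (univ.filter fun j => (σ j).val < m).card = m := by
  have h : (univ.filter fun j => (σ j).val < m).card =
      (univ.filter fun j : Fin n => j.val < m).card :=
    card_equiv σ fun j => by simp
  rw [h, Fin.card_filter_val_lt, min_eq_right hm]

lemma val_eq_card (σ : Perm (Fin n)) (i : Fin n) :
    (univ.filter fun j => σ j < σ i).card = (σ i).val :=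
  card_lt_val σ _ (σ i).2.le

/-- `c` splits the permutation as a direct sum. -/
def Cut (σ : Perm (Fin n)) (c : ℕ) : Prop :=
  0 < c ∧ c < n ∧ ∀ i, (σ i).val < c ↔ i.val < c

lemma Cut.inv {σ : Perm (Fin n)} {c : ℕ} (h : Cut σ c) : Cut σ⁻¹ c :=
  ⟨h.1, h.2.1, fun i => by simpa using (h.2.2 (σ⁻¹ i)).symm⟩

lemma Cut.rc {σ : Perm (Fin n)} {c : ℕ} (h : Cut σ c) : Cut (rc σ) (n - c) := by
  obtain ⟨h1, h2, h3⟩ := h
  refine ⟨by omega, by omega, fun i => ?_⟩
  have := h3 i.rev
  have h4 := (σ i.rev).2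
  have h5 := i.2
  rw [rc_apply]
  simp only [Fin.val_rev] at this ⊢
  omega

lemma cut_of_order {σ : Perm (Fin n)} {c : ℕ} (h0 : 0 < c) (hn : c < n)
    (h : ∀ i j : Fin n, i.val < c → c ≤ j.val → σ i < σ j) : Cut σ c := by
  refine ⟨h0, hn, fun i => ⟨fun hi => ?_, fun hi => ?_⟩⟩
  · by_contra hc
    have h1 : (univ.filter fun j : Fin n => j.val < c) ⊆ univ.filter fun j => σ j < σ i := by
      intro j hj
      simp only [mem_filter, mem_univ, true_and] at hj ⊢
      exact h j i hj (by omega)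
    have h2 := card_le_card h1
    rw [val_eq_card, Fin.card_filter_val_lt, min_eq_right hn.le] at h2
    omega
  · have h1 : (univ.filter fun j => σ j < σ i) ⊂ (univ.filter fun j : Fin n => j.val < c) := by
      refine ⟨fun j hj => ?_, fun hc => ?_⟩
      · simp only [mem_filter, mem_univ, true_and] at hj ⊢
        by_contra hc
        exact lt_asymm hj (h i j hi (by omega))
      · have := hc (show i ∈ _ by simpa using hi)
        simp at this
    have h2 := card_lt_card h1
    rwa [val_eq_card, Fin.card_filter_val_lt, min_eq_right hn.le] at h2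

/-- Insert a new point at position `p` with value `v`. -/
def ins (σ : Perm (Fin n)) (p v : Fin (n + 1)) : Perm (Fin (n + 1)) :=
  (finSuccEquiv' p).trans ((Equiv.optionCongr σ).trans (finSuccEquiv' v).symm)

@[simp] lemma ins_self (σ : Perm (Fin n)) (p v : Fin (n + 1)) : ins σ p v p = v := by
  simp [ins]

@[simp] lemma ins_succAbove (σ : Perm (Fin n)) (p v : Fin (n + 1)) (i : Fin n) :
    ins σ p v (p.succAbove i) = v.succAbove (σ i) := by
  simp [ins]

lemma ins_zero_succ (σ : Perm (Fin n)) (v : Fin (n + 1)) (i : Fin n) :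
    ins σ 0 v i.succ = v.succAbove (σ i) := by
  rw [← ins_succAbove σ 0 v i]; rfl

lemma ins_injective {σ τ : Perm (Fin n)} {p v : Fin (n + 1)} (h : ins σ p v = ins τ p v) :
    σ = τ := by
  ext i
  have := congrArg (fun ρ : Perm (Fin (n + 1)) => ρ (p.succAbove i)) h
  simp only [ins_succAbove, Fin.succAbove_right_inj] at this
  rw [this]

lemma exists_ins (ρ : Perm (Fin (n + 1))) (p : Fin (n + 1)) : ∃ σ, ρ = ins σ p (ρ p) := by
  set e : Perm (Option (Fin n)) := (finSuccEquiv' p).symm.trans (ρ.trans (finSuccEquiv' (ρ p)))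
    with he
  have h0 : e none = none := by simp [he]
  have h1 := map_equiv_removeNone e
  rw [h0, swap_self] at h1
  refine ⟨removeNone e, ?_⟩
  rw [ins, h1]
  ext i
  simp [he]

lemma ins_inv (σ : Perm (Fin n)) (p v : Fin (n + 1)) : (ins σ p v)⁻¹ = ins σ⁻¹ v p := by
  rw [inv_eq_iff_mul_eq_one]
  ext i
  refine Fin.succAboveCases v ?_ (fun j => ?_) i <;> simp

lemma val_succAbove (p : Fin (n + 1)) (i : Fin n) :
    (p.succAbove i).val = if i.val < p.val then i.val else i.val + 1 := by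
  unfold Fin.succAbove
  split_ifs with h1 h2 h2
  · rfl
  · exact absurd h1 h2
  · exact absurd h2 h1
  · rfl

lemma card_invs_eq_sum (σ : Perm (Fin n)) :
    (invs σ).card = ∑ i, ∑ j, if i < j ∧ σ j < σ i then 1 else 0 := by
  rw [invs, card_filter, Fintype.sum_prod_type]

lemma card_invs_ins (σ : Perm (Fin n)) (p v : Fin (n + 1)) :
    (invs (ins σ p v)).card = (invs σ).card +
      (univ.filter fun j => p.val ≤ j.val ∧ (σ j).val < v.val).card +
      (univ.filter fun j => j.val < p.val ∧ v.val ≤ (σ j).val).card := by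
  rw [card_invs_eq_sum, card_invs_eq_sum, Fin.sum_univ_succAbove _ p, Fin.sum_univ_succAbove _ p]
  simp only [Fin.sum_univ_succAbove _ p, ins_self, ins_succAbove, lt_irrefl, false_and, if_false,
    zero_add, sum_add_distrib, Fin.succAbove_lt_succAbove_iff, card_filter]
  have e1 : ∀ j : Fin n, (p < p.succAbove j ∧ v.succAbove (σ j) < v) ↔
      (p.val ≤ j.val ∧ (σ j).val < v.val) := by
    intro j
    simp only [Fin.lt_def, val_succAbove]
    split_ifs <;> omega
  have e2 : ∀ j : Fin n, (p.succAbove j < p ∧ v < v.succAbove (σ j)) ↔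
      (j.val < p.val ∧ v.val ≤ (σ j).val) := by
    intro j
    simp only [Fin.lt_def, val_succAbove]
    split_ifs <;> omega
  simp only [e1, e2]
  ring

lemma card_invs_ins_zero (σ : Perm (Fin n)) (v : Fin (n + 1)) :
    (invs (ins σ 0 v)).card = (invs σ).card + v.val := by
  rw [card_invs_ins]
  simp only [Fin.val_zero, zero_le, true_and, not_lt_zero', false_and, filter_false, card_empty,
    add_zero]
  rw [card_lt_val σ _ (Nat.lt_succ_iff.1 v.2)]

lemma card_invs_ins_cut {σ : Perm (Fin n)} {c : Fin (n + 1)} (h : Cut σ c.val) :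
    (invs (ins σ c c)).card = (invs σ).card := by
  rw [card_invs_ins, filter_false_of_mem, filter_false_of_mem]
  · simp
  · intro j _
    have := h.2.2 j
    omega
  · intro j _
    have := h.2.2 j
    omega

end Pool.Agent.MP_45d82d_co

end MrgPart0

-- ======== part 1: formerly Pool.Agent.MP_45d82d_co.Inject
section MrgPart1

/-!
The length-increasing injections on decomposable and almost decomposable 1324-avoiders.
-/

set_option autoImplicit false

open Finset Equiv

namespace Pool.Agent.MP_45d82d_co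

open Classical

variable {n : ℕ}

/-- Two different cuts. -/
def TC (σ : Perm (Fin n)) : Prop := ∃ c c', c < c' ∧ Cut σ c ∧ Cut σ c'

/-- Decomposable. -/
def Dec (σ : Perm (Fin n)) : Prop := ∃ c, Cut σ c

/-- The least cut. -/
def LCut (σ : Perm (Fin n)) (c : ℕ) : Prop := Cut σ c ∧ ∀ c', Cut σ c' → c ≤ c'

lemma Dec.exists_lcut {σ : Perm (Fin n)} (h : Dec σ) : ∃ c, LCut σ c :=
  ⟨Nat.find h, Nat.find_spec h, fun _ hc => Nat.find_min' h hc⟩

lemma TC.inv {σ : Perm (Fin n)} (h : TC σ) : TC σ⁻¹ := by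
  obtain ⟨c, c', h1, h2, h3⟩ := h
  exact ⟨c, c', h1, h2.inv, h3.inv⟩

lemma TC.rc {σ : Perm (Fin n)} (h : TC σ) : TC (rc σ) := by
  obtain ⟨c, c', h1, h2, h3⟩ := h
  exact ⟨n - c', n - c, by have := h3.2.1; omega, h3.rc, h2.rc⟩

lemma tc_inv {σ : Perm (Fin n)} : TC σ⁻¹ ↔ TC σ :=
  ⟨fun h => by simpa using h.inv, TC.inv⟩

lemma tc_rc {σ : Perm (Fin n)} : TC (rc σ) ↔ TC σ :=
  ⟨fun h => by simpa using h.rc, TC.rc⟩

lemma dec_inv {σ : Perm (Fin n)} : Dec σ⁻¹ ↔ Dec σ :=
  ⟨fun ⟨c, h⟩ => ⟨c, by simpa using h.inv⟩, fun ⟨c, h⟩ => ⟨c, h.inv⟩⟩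

lemma dec_rc {σ : Perm (Fin n)} : Dec (rc σ) ↔ Dec σ :=
  ⟨fun ⟨c, h⟩ => ⟨_, by simpa using h.rc⟩, fun ⟨c, h⟩ => ⟨_, h.rc⟩⟩

lemma ins_cases (σ : Perm (Fin n)) (p v i : Fin (n + 1)) :
    (i = p ∧ ins σ p v i = v) ∨
      ∃ j : Fin n, i = p.succAbove j ∧ ins σ p v i = v.succAbove (σ j) := by
  refine Fin.succAboveCases p (Or.inl ⟨rfl, ins_self _ _ _⟩) (fun j => ?_) i
  exact Or.inr ⟨j, rfl, ins_succAbove _ _ _ _⟩

lemma cut_ins_self {σ : Perm (Fin n)} {c : Fin (n + 1)} (h : Cut σ c.val) :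
    Cut (ins σ c c) c.val ∧ Cut (ins σ c c) (c.val + 1) := by
  obtain ⟨h1, h2, h3⟩ := h
  refine ⟨⟨h1, by omega, fun i => ?_⟩, ⟨by omega, by omega, fun i => ?_⟩⟩
  all_goals
    rcases ins_cases σ c c i with ⟨rfl, e⟩ | ⟨j, rfl, e⟩
    · rw [e]
    · rw [e]
      have := h3 j
      simp only [val_succAbove]
      split_ifs <;> omega

lemma cut_of_cut_ins_le {σ : Perm (Fin n)} {c : Fin (n + 1)} (hc : c.val < n) {d : ℕ}
    (h : Cut (ins σ c c) d) (hd : d ≤ c.val) : Cut σ d := by
  refine ⟨h.1, by omega, fun j => ?_⟩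
  have := h.2.2 (c.succAbove j)
  rw [ins_succAbove] at this
  simp only [val_succAbove] at this
  split_ifs at this <;> omega

lemma cut_of_cut_ins_ge {σ : Perm (Fin n)} {p v : Fin (n + 1)} {d : ℕ} (hd0 : 0 < d)
    (h : Cut (ins σ p v) (d + 1)) (hp : p.val ≤ d) (hv : v.val ≤ d) : Cut σ d := by
  refine ⟨hd0, by have := h.2.1; omega, fun j => ?_⟩
  have := h.2.2 (p.succAbove j)
  rw [ins_succAbove] at this
  simp only [val_succAbove] at this
  split_ifs at this <;> omega

lemma cut_ins_of_ge {σ : Perm (Fin n)} {p v : Fin (n + 1)} {d : ℕ}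
    (h : Cut σ d) (hp : p.val ≤ d) (hv : v.val ≤ d) : Cut (ins σ p v) (d + 1) := by
  refine ⟨by omega, by have := h.2.1; omega, fun i => ?_⟩
  rcases ins_cases σ p v i with ⟨rfl, e⟩ | ⟨j, rfl, e⟩
  · rw [e]; omega
  · rw [e]
    have := h.2.2 j
    simp only [val_succAbove]
    split_ifs <;> omega

lemma avoid_of_ins {σ : Perm (Fin n)} {p v : Fin (n + 1)} (h : Avoid (ins σ p v)) : Avoid σ := by
  rintro ⟨a, b, c, d, h1, h2, h3, h4, h5, h6⟩
  refine h ⟨p.succAbove a, p.succAbove b, p.succAbove c, p.succAbove d, ?_, ?_, ?_, ?_, ?_, ?_⟩ <;>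
    simpa [Fin.succAbove_lt_succAbove_iff]

lemma avoid_ins_cut {σ : Perm (Fin n)} {c : Fin (n + 1)} (h : Avoid σ) (hc : Cut σ c.val) :
    Avoid (ins σ c c) := by
  rintro ⟨a, b, e, d, h1, h2, h3, h4, h5, h6⟩
  obtain ⟨hc1, hc2⟩ := cut_ins_self hc
  have hb := hc1.2.2 b
  have he := hc1.2.2 e
  have hb' := hc2.2.2 b
  have he' := hc2.2.2 e
  obtain ⟨g1, g2, g3⟩ := hc
  rcases ins_cases σ c c b with ⟨rfl, eb⟩ | ⟨b', rfl, eb⟩
  · rw [eb] at h5; simp only [Fin.lt_def] at *; omega
  rcases ins_cases σ c c e with ⟨rfl, ee⟩ | ⟨e', rfl, ee⟩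
  · rw [ee] at h5; simp only [Fin.lt_def] at *; omega
  rw [eb, ee] at h5
  rw [ee] at h4
  rw [eb] at h6
  have hbe : b' < e' := Fin.succAbove_lt_succAbove_iff.1 h2
  have hbe' : σ e' < σ b' := Fin.succAbove_lt_succAbove_iff.1 h5
  have ha : ∃ a' : Fin n, a' < b' ∧ σ a' < σ e' := by
    rcases ins_cases σ c c a with ⟨rfl, ea⟩ | ⟨a', rfl, ea⟩
    · rw [ea] at h4
      refine ⟨⟨0, by omega⟩, ?_, ?_⟩
      · simp only [Fin.lt_def, val_succAbove] at h1 ⊢
        split_ifs at h1 <;> omega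
      · have := g3 ⟨0, by omega⟩
        simp only [Fin.lt_def, val_succAbove] at h4 this ⊢
        split_ifs at h4 <;> omega
    · rw [ea] at h4
      exact ⟨a', Fin.succAbove_lt_succAbove_iff.1 h1, Fin.succAbove_lt_succAbove_iff.1 h4⟩
  have hd : ∃ d' : Fin n, e' < d' ∧ σ b' < σ d' := by
    rcases ins_cases σ c c d with ⟨rfl, ed⟩ | ⟨d', rfl, ed⟩
    · rw [ed] at h6
      refine ⟨⟨n - 1, by omega⟩, ?_, ?_⟩
      · simp only [Fin.lt_def, val_succAbove] at h3 ⊢
        split_ifs at h3 <;> omega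
      · have := g3 ⟨n - 1, by omega⟩
        simp only [Fin.lt_def, val_succAbove] at h6 this ⊢
        split_ifs at h6 <;> omega
    · rw [ed] at h6
      exact ⟨d', Fin.succAbove_lt_succAbove_iff.1 h3, Fin.succAbove_lt_succAbove_iff.1 h6⟩
  obtain ⟨a', ha1, ha2⟩ := ha
  obtain ⟨d', hd1, hd2⟩ := hd
  exact h ⟨a', b', e', d', ha1, hbe, hd1, ha2, hbe', hd2⟩

lemma avoid_ins_zero {σ : Perm (Fin n)} {v : Fin (n + 1)} (h : Avoid σ)
    (hv : ∀ b c d : Fin n, b < c → c < d → v.val ≤ (σ c).val → σ c < σ b → σ b < σ d → False) :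
    Avoid (ins σ 0 v) := by
  rintro ⟨a, b, e, d, h1, h2, h3, h4, h5, h6⟩
  rcases ins_cases σ 0 v b with ⟨rfl, -⟩ | ⟨b', rfl, eb⟩
  · exact absurd h1 (Fin.not_lt_zero _)
  rcases ins_cases σ 0 v e with ⟨rfl, -⟩ | ⟨e', rfl, ee⟩
  · exact absurd h2 (Fin.not_lt_zero _)
  rcases ins_cases σ 0 v d with ⟨rfl, -⟩ | ⟨d', rfl, ed⟩
  · exact absurd h3 (Fin.not_lt_zero _)
  rw [eb, ee] at h5
  rw [ee] at h4
  rw [eb, ed] at h6
  rw [Fin.succAbove_lt_succAbove_iff] at h2 h3 h5 h6
  rcases ins_cases σ 0 v a with ⟨rfl, ea⟩ | ⟨a', rfl, ea⟩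
  · rw [ea] at h4
    refine hv b' e' d' h2 h3 ?_ h5 h6
    simp only [Fin.lt_def, val_succAbove] at h4
    split_ifs at h4 <;> omega
  · rw [ea] at h4
    rw [Fin.succAbove_lt_succAbove_iff] at h1 h4
    exact h ⟨a', b', e', d', h1, h2, h3, h4, h5, h6⟩

lemma ins_lcut_inj {σ τ : Perm (Fin n)} {c c' : Fin (n + 1)} (hc : LCut σ c.val)
    (hc' : LCut τ c'.val) (h : ins σ c c = ins τ c' c') : σ = τ := by
  have e : c = c' := by
    apply Fin.ext
    rcases lt_trichotomy c.val c'.val with hl | hl | hl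
    · have h1 := (cut_ins_self hc.1).1
      rw [h] at h1
      have := hc'.2 _ (cut_of_cut_ins_le hc'.1.2.1 h1 hl.le)
      omega
    · exact hl
    · have h1 := (cut_ins_self hc'.1).1
      rw [← h] at h1
      have := hc.2 _ (cut_of_cut_ins_le hc.1.2.1 h1 hl.le)
      omega
  subst e
  exact ins_injective h

lemma card_dec_le (n k : ℕ) :
    ((Av n k).filter Dec).card ≤ ((Av (n + 1) k).filter TC).card := by
  refine card_le_card_of_forall_subsingleton
    (fun σ ρ => ∃ c : Fin (n + 1), LCut σ c.val ∧ ρ = ins σ c c) ?_ ?_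
  · intro σ hσ
    rw [mem_filter, mem_Av] at hσ
    obtain ⟨c, hc⟩ := hσ.2.exists_lcut
    set c' : Fin (n + 1) := ⟨c, by have := hc.1.2.1; omega⟩
    have hc1 : Cut σ c'.val := hc.1
    refine ⟨ins σ c' c', ?_, c', hc, rfl⟩
    rw [mem_filter, mem_Av]
    exact ⟨⟨avoid_ins_cut hσ.1.1 hc1, by rw [card_invs_ins_cut hc1, hσ.1.2]⟩,
      _, _, Nat.lt_succ_self _, (cut_ins_self hc1).1, (cut_ins_self hc1).2⟩
  · rintro ρ - σ ⟨-, c, hc, e⟩ τ ⟨-, c', hc', e'⟩
    exact ins_lcut_inj hc hc' (e.symm.trans e')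

/-- Left arm. -/
def Lf (σ : Perm (Fin (n + 1))) : ℕ := (σ 0).val

/-- Bottom arm. -/
def Bt (σ : Perm (Fin (n + 1))) : ℕ := Lf σ⁻¹

/-- Right arm. -/
def Rt (σ : Perm (Fin (n + 1))) : ℕ := Lf (rc σ)

/-- Top arm. -/
def Tp (σ : Perm (Fin (n + 1))) : ℕ := Lf (rc σ⁻¹)

@[simp] lemma Lf_inv (σ : Perm (Fin (n + 1))) : Lf σ⁻¹ = Bt σ := rfl
@[simp] lemma Bt_inv (σ : Perm (Fin (n + 1))) : Bt σ⁻¹ = Lf σ := by simp [Bt]
@[simp] lemma Rt_inv (σ : Perm (Fin (n + 1))) : Rt σ⁻¹ = Tp σ := rfl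
@[simp] lemma Tp_inv (σ : Perm (Fin (n + 1))) : Tp σ⁻¹ = Rt σ := by simp [Tp, Rt]
@[simp] lemma Lf_rc (σ : Perm (Fin (n + 1))) : Lf (rc σ) = Rt σ := rfl
@[simp] lemma Bt_rc (σ : Perm (Fin (n + 1))) : Bt (rc σ) = Tp σ := by rw [Bt, Tp, rc_inv]
@[simp] lemma Rt_rc (σ : Perm (Fin (n + 1))) : Rt (rc σ) = Lf σ := by rw [Rt, rc_rc]
@[simp] lemma Tp_rc (σ : Perm (Fin (n + 1))) : Tp (rc σ) = Bt σ := by
  rw [Tp, Bt, rc_inv, rc_rc]

lemma Rt_eq (σ : Perm (Fin (n + 1))) : Rt σ = n - (σ (Fin.last n)).val := by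
  simp [Rt, Lf, rc_apply, Fin.val_rev]

lemma Tp_eq (σ : Perm (Fin (n + 1))) : Tp σ = n - (σ⁻¹ (Fin.last n)).val := by
  rw [← Rt_inv, Rt_eq]

lemma ins_val_of_lt (σ : Perm (Fin n)) (p v i : Fin (n + 1)) (j : Fin n) (h : i.val < p.val)
    (hj : j.val = i.val) : ins σ p v i = v.succAbove (σ j) := by
  rw [← ins_succAbove σ p v j]
  congr 1
  apply Fin.ext
  rw [val_succAbove]
  split_ifs <;> omega

lemma ins_val_of_gt (σ : Perm (Fin n)) (p v i : Fin (n + 1)) (j : Fin n) (h : p.val < i.val)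
    (hj : j.val + 1 = i.val) : ins σ p v i = v.succAbove (σ j) := by
  rw [← ins_succAbove σ p v j]
  congr 1
  apply Fin.ext
  rw [val_succAbove]
  split_ifs <;> omega

/-- Removing the first point leaves a decomposable permutation. -/
def AD (σ : Perm (Fin (n + 1))) : Prop := ∃ π : Perm (Fin n), σ = ins π 0 (σ 0) ∧ Dec π

lemma card_ad_le (n k : ℕ) (Φ : ℕ → ℕ → ℕ → ℕ → Prop)
    (hΦ : ∀ a b c d b' c' d', Φ a b c d → b' ≤ b → c' ≤ c → d' ≤ d → Φ a b' c' d') :
    ((Av (n + 1) k).filter fun σ => ¬ Dec σ ∧ AD σ ∧ Φ (Lf σ) (Bt σ) (Rt σ) (Tp σ)).card ≤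
      ((Av (n + 2) k).filter fun ρ => ¬ TC ρ ∧ Φ (Lf ρ) (Bt ρ) (Rt ρ) (Tp ρ)).card := by
  refine card_le_card_of_forall_subsingleton
    (fun σ ρ => ∃ (π : Perm (Fin n)) (c : Fin (n + 1)), σ = ins π 0 (σ 0) ∧ LCut π c.val ∧
      ρ = ins (ins π c c) 0 (σ 0).castSucc) ?_ ?_
  · intro σ hσ
    rw [mem_filter, mem_Av] at hσ
    obtain ⟨⟨hav, hk⟩, hind, ⟨π, hπ, hdec⟩, hphi⟩ := hσ
    obtain ⟨c, hc⟩ := hdec.exists_lcut
    set c' : Fin (n + 1) := ⟨c, by have := hc.1.2.1; omega⟩
    have hc1 : Cut π c'.val := hc.1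
    refine ⟨_, ?_, π, c', hπ, hc, rfl⟩
    generalize σ 0 = v at hπ
    subst hπ
    have hc0 := hc1.1
    have hcn := hc1.2.1
    have hv : c'.val < v.val := by
      by_contra hv
      exact hind ⟨_, cut_ins_of_ge hc1 (by simp) (by omega)⟩
    have hav' : Avoid (ins π c' c') := avoid_ins_cut (avoid_of_ins hav) hc1
    have h0 : (ins π c' c' 0).val < c'.val := ((cut_ins_self hc1).1.2.2 0).2 (by simpa using hc0)
    rw [mem_filter, mem_Av]
    refine ⟨⟨avoid_ins_zero hav' ?_, ?_⟩, ?_, ?_⟩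
    · intro b e d h1 h2 h3 h4 h5
      simp only [Fin.val_castSucc] at h3
      refine hav' ⟨0, b, e, d, ?_, h1, h2, by rw [Fin.lt_def]; omega, h4, h5⟩
      rcases Fin.eq_zero_or_eq_succ b with rfl | ⟨b', rfl⟩
      · rw [Fin.lt_def] at h4; omega
      · exact Fin.succ_pos _
    · rw [card_invs_ins_zero, card_invs_ins_cut hc1, ← hk, card_invs_ins_zero, Fin.val_castSucc]
    · rintro ⟨c2, c3, h23, h2, h3⟩
      have hv2 : v.val < c2 := by
        have := (h2.2.2 0).2 (by simpa using h2.1)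
        simpa using this
      obtain ⟨d, rfl⟩ : ∃ d, c3 = d + 1 + 1 := ⟨c3 - 2, by omega⟩
      have g1 := cut_of_cut_ins_ge (by omega) h3 (by simp) (by simp; omega)
      have g2 := cut_of_cut_ins_ge (by omega) g1 (by omega) (by omega)
      exact hind ⟨_, cut_ins_of_ge g2 (by simp) (by omega)⟩
    · have hL : Lf (ins (ins π c' c') 0 v.castSucc) = Lf (ins π 0 v) := by simp [Lf]
      rw [hL]
      refine hΦ _ _ _ _ _ _ _ hphi ?_ ?_ ?_
      · simp only [Bt, Lf, ins_inv]
        have hv0 : 0 < v.val := by omega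
        rw [ins_val_of_lt _ _ _ _ (0 : Fin (n + 1)) (by simpa using hv0) rfl,
          ins_val_of_lt _ _ _ _ (⟨0, by omega⟩ : Fin n) (by simpa using hc0) rfl,
          ins_val_of_lt _ _ _ _ (⟨0, by omega⟩ : Fin n) (by simpa using hv0) rfl]
        have := (hc1.inv.2.2 ⟨0, by omega⟩).2 hc0
        simp only [val_succAbove]
        split_ifs <;> simp at *
      · rw [Rt_eq, Rt_eq]
        rw [ins_val_of_gt _ _ _ _ (Fin.last n) (by simp) (by simp),
          ins_val_of_gt _ _ _ _ (⟨n - 1, by omega⟩ : Fin n) (by simpa using hcn)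
            (by simp; omega),
          ins_val_of_gt _ _ _ _ (⟨n - 1, by omega⟩ : Fin n) (by simp; omega) (by simp; omega)]
        have := hc1.2.2 ⟨n - 1, by omega⟩
        simp only [val_succAbove, Fin.val_castSucc] at this ⊢
        split_ifs <;> omega
      · rw [Tp_eq, Tp_eq]
        simp only [ins_inv]
        have hvn := v.2
        rw [ins_val_of_gt _ _ _ _ (Fin.last n) (by simp; omega) (by simp),
          ins_val_of_gt _ _ _ _ (⟨n - 1, by omega⟩ : Fin n) (by simpa using hcn)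
            (by simp; omega)]
        have := hc1.inv.2.2 ⟨n - 1, by omega⟩
        by_cases hvl : v = Fin.last n
        · subst hvl
          rw [ins_self]
          simp only [val_succAbove, Fin.val_zero]
          split_ifs <;> omega
        · have : v.val < n := by
            rcases lt_or_eq_of_le (Nat.lt_succ_iff.1 hvn) with h | h
            · exact h
            · exact absurd (Fin.ext h) hvl
          rw [ins_val_of_gt _ _ _ _ (⟨n - 1, by omega⟩ : Fin n) (by simpa) (by simp; omega)]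
          simp only [val_succAbove, Fin.val_zero] at *
          split_ifs <;> omega
  · rintro ρ - σ ⟨-, π, c, e1, hc, e⟩ τ ⟨-, π', c', e1', hc', e'⟩
    have h := e.symm.trans e'
    have hv : σ 0 = τ 0 := by
      have := congrArg (fun ρ : Perm (Fin (n + 2)) => ρ 0) h
      simpa using this
    rw [hv] at h e1
    rw [e1, e1', ins_lcut_inj hc hc' (ins_injective h)]
    simp

lemma card_top_le (n j : ℕ) :
    (Av n j).card ≤ ((Av (n + 1) (j + n)).filter fun ρ => Lf ρ = n).card := by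
  refine card_le_card_of_injOn (fun σ => ins σ 0 (Fin.last n)) ?_ ?_
  · intro σ hσ
    rw [mem_coe, mem_Av] at hσ
    simp only [coe_filter, Set.mem_setOf_eq, mem_Av]
    refine ⟨⟨avoid_ins_zero hσ.1 ?_, by rw [card_invs_ins_zero, hσ.2, Fin.val_last]⟩, by simp [Lf]⟩
    intro b c d _ _ h _ _
    have := (σ c).2
    simp only [Fin.val_last] at h
    omega
  · intro σ _ τ _ h
    exact ins_injective h

end Pool.Agent.MP_45d82d_co

end MrgPart1

-- ======== part 2: formerly Pool.Agent.MP_45d82d_co.Parts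
section MrgPart2

/-!
Multisets of bounded natural numbers with a given size and sum, and a doubling inequality.
-/

set_option autoImplicit false

open Finset

namespace Pool.Agent.MP_45d82d_co

/-- Multisets of `m` numbers at most `b` with sum `j`. -/
def Q (m b j : ℕ) : Finset (Multiset ℕ) :=
  (((range (b + 1)).sym m).image fun s => (s.1 : Multiset ℕ)).filter fun l => l.sum = j

lemma mem_Q {m b j : ℕ} {l : Multiset ℕ} :
    l ∈ Q m b j ↔ l.card = m ∧ (∀ x ∈ l, x ≤ b) ∧ l.sum = j := by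
  simp only [Q, mem_filter, mem_image, mem_sym_iff, mem_range]
  constructor
  · rintro ⟨⟨s, hs, rfl⟩, h⟩
    exact ⟨s.2, fun x hx => Nat.lt_succ_iff.1 (hs x hx), h⟩
  · rintro ⟨h1, h2, h3⟩
    exact ⟨⟨⟨l, h1⟩, fun x hx => Nat.lt_succ_iff.2 (h2 x hx), rfl⟩, h3⟩

lemma card_Q_cons (m b j x : ℕ) (hx : x ≤ b) : (Q m b j).card ≤ (Q (m + 1) b (j + x)).card := by
  refine card_le_card_of_injOn (fun l => x ::ₘ l) ?_ ?_
  · intro l hl
    rw [mem_coe, mem_Q] at hl ⊢
    refine ⟨by simp [hl.1], fun y hy => ?_, by simp [hl.2.2, add_comm]⟩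
    rcases Multiset.mem_cons.1 hy with rfl | hy
    · exact hx
    · exact hl.2.1 y hy
  · intro l _ l' _ h
    exact (Multiset.cons_inj_right x).1 h

lemma card_Q_pad (m b j d : ℕ) : (Q m b j).card ≤ (Q (m + d) b j).card := by
  induction d with
  | zero => exact le_rfl
  | succ d ih => exact ih.trans (card_Q_cons (m + d) b j 0 (Nat.zero_le _))

lemma card_big_mul_le (l : Multiset ℕ) (u : ℕ) :
    (l.toFinset.filter fun y => u < y).card * (u + 1) ≤ l.sum := by
  have h1 : (l.toFinset.filter fun y => u < y).card * (u + 1) ≤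
      ∑ y ∈ l.toFinset.filter fun y => u < y, y := by
    rw [← smul_eq_mul]
    exact card_nsmul_le_sum _ _ _ fun y hy => (mem_filter.1 hy).2
  refine h1.trans ((sum_le_sum_of_subset (filter_subset _ _)).trans ?_)
  conv_rhs => rw [Finset.sum_multiset_count]
  refine sum_le_sum fun y hy => ?_
  have : 1 ≤ l.count y := Multiset.one_le_count_iff_mem.2 (Multiset.mem_toFinset.1 hy)
  rw [smul_eq_mul]
  exact Nat.le_mul_of_pos_left _ this

lemma card_Q_double (m b j u : ℕ) (hu : 0 < u) (hb : 2 * u + 1 ≤ b)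
    (hj : 2 * (j + (2 * u + 1)) ≤ u ^ 2) :
    2 * (Q m b j).card ≤ (Q (m + 2) b (j + (2 * u + 1))).card := by
  classical
  set R : Multiset ℕ → Multiset ℕ → Prop :=
    fun l l' => ∃ x ∈ Icc 1 u, l' = x ::ₘ (2 * u + 1 - x) ::ₘ l with hR
  have key := @card_mul_le_card_mul _ _ R (Q m b j) (Q (m + 2) b (j + (2 * u + 1))) u (u / 2)
    (fun _ _ => Classical.propDecidable _) ?_ ?_
  · have h2 : (Q (m + 2) b (j + (2 * u + 1))).card * (u / 2) * 2 ≤
        (Q (m + 2) b (j + (2 * u + 1))).card * u := by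
      rw [mul_assoc]
      exact Nat.mul_le_mul_left _ (Nat.div_mul_le_self u 2)
    refine Nat.le_of_mul_le_mul_right ?_ hu
    nlinarith
  · intro l hl
    rw [mem_Q] at hl
    have hc : (Icc 1 u).card = u := by simp
    rw [← hc]
    refine card_le_card_of_injOn (fun x => x ::ₘ (2 * u + 1 - x) ::ₘ l) ?_ ?_
    · intro x hx
      rw [mem_coe, mem_Icc] at hx
      rw [mem_coe, mem_bipartiteAbove, mem_Q]
      refine ⟨⟨by simp [hl.1], fun y hy => ?_, ?_⟩, x, by simpa using hx, by simp⟩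
      · simp only [Multiset.mem_cons] at hy
        rcases hy with rfl | rfl | hy
        · omega
        · omega
        · exact hl.2.1 y hy
      · simp only [Multiset.sum_cons, hl.2.2]
        simp only [Nat.card_Icc] at *
        omega
    · intro x hx y hy h
      rw [mem_coe, mem_Icc] at hx hy
      have h1 : (x ::ₘ {2 * u + 1 - x} : Multiset ℕ) + l = (y ::ₘ {2 * u + 1 - y}) + l := by
        simpa using h
      have h2 := add_right_cancel h1
      have h3 : x ∈ (y ::ₘ {2 * u + 1 - y} : Multiset ℕ) := by rw [← h2]; simp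
      simp only [Multiset.mem_cons, Multiset.mem_singleton] at h3
      omega
  · intro l' hl'
    rw [mem_Q] at hl'
    have h1 := card_big_mul_le l' u
    rw [hl'.2.2] at h1
    have h2 : (@bipartiteBelow _ _ R (Q m b j) l' (fun _ => Classical.propDecidable _)).card ≤
        (l'.toFinset.filter fun y => u < y).card := by
      refine card_le_card_of_forall_subsingleton
        (fun l y => l' = (2 * u + 1 - y) ::ₘ y ::ₘ l) ?_ ?_
      · intro l hl
        rw [mem_bipartiteBelow] at hl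
        obtain ⟨-, x, hx, e⟩ := hl
        rw [mem_Icc] at hx
        refine ⟨2 * u + 1 - x, ?_, ?_⟩
        · rw [mem_filter, Multiset.mem_toFinset, e]
          exact ⟨by simp, by omega⟩
        · rw [e]
          congr 1
          omega
      · rintro y - l ⟨-, e⟩ l2 ⟨-, e2⟩
        have := e.symm.trans e2
        simpa using this
    refine h2.trans ?_
    rw [Nat.le_div_iff_mul_le (by norm_num)]
    refine Nat.le_of_mul_le_mul_right ?_ (Nat.succ_pos u)
    nlinarith

lemma card_Q_pow (m b j u D : ℕ) (hu : 0 < u) (hb : 2 * u + 1 ≤ b)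
    (hj : 2 * (j + D * (2 * u + 1)) ≤ u ^ 2) :
    2 ^ D * (Q m b j).card ≤ (Q (m + 2 * D) b (j + D * (2 * u + 1))).card := by
  induction D with
  | zero => simp
  | succ D ih =>
    have h1 := ih (by nlinarith)
    have h2 := card_Q_double (m + 2 * D) b (j + D * (2 * u + 1)) u hu hb (by nlinarith)
    have e1 : m + 2 * (D + 1) = m + 2 * D + 2 := by ring
    have e2 : j + (D + 1) * (2 * u + 1) = j + D * (2 * u + 1) + (2 * u + 1) := by ring
    rw [e1, e2, pow_succ]
    nlinarith

lemma card_Q_gain (m b j t u E : ℕ) (hu : 0 < u) (hb : 2 * u + 1 ≤ b)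
    (hj : 2 * (j + t) ≤ u ^ 2) (hE : E * (2 * u + 1) ≤ t) :
    2 ^ E * (Q m b j).card ≤ (Q (m + b) b (j + t)).card := by
  set D := t / (2 * u + 1) with hD
  have h0 : D * (2 * u + 1) + t % (2 * u + 1) = t := by
    rw [hD, mul_comm]; exact Nat.div_add_mod t _
  have h1 : t % (2 * u + 1) < 2 * u + 1 := Nat.mod_lt _ (by omega)
  have hED : E ≤ D := (Nat.le_div_iff_mul_le (by omega)).2 hE
  have h2 := card_Q_pow m b j u D hu hb (by omega)
  have h3 := card_Q_cons (m + 2 * D) b (j + D * (2 * u + 1)) (t % (2 * u + 1)) (by omega)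
  have h4 : 2 * D ≤ u := by
    refine Nat.le_of_mul_le_mul_right ?_ hu
    have h6 : D * (2 * u + 1) ≤ t := by omega
    nlinarith
  have h5 := card_Q_pad (m + 2 * D + 1) b (j + t) (b - (2 * D + 1))
  rw [show m + 2 * D + 1 + (b - (2 * D + 1)) = m + b by omega] at h5
  rw [show j + D * (2 * u + 1) + t % (2 * u + 1) = j + t by omega] at h3
  calc 2 ^ E * (Q m b j).card ≤ 2 ^ D * (Q m b j).card :=
        Nat.mul_le_mul_right _ (Nat.pow_le_pow_right (by norm_num) hED)
    _ ≤ _ := h2.trans (h3.trans h5)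

end Pool.Agent.MP_45d82d_co

end MrgPart2

-- ======== part 3: formerly Pool.Agent.MP_45d82d_co.Decode
section MrgPart3

/-!
Lehmer codes, and a lower bound for the number of 1324-avoiders by pairs of partitions.
-/

set_option autoImplicit false

open Finset Equiv

namespace Pool.Agent.MP_45d82d_co

open Classical

variable {n : ℕ}

/-- The Lehmer code relative to a set `S` of positions. -/
def code (σ : Perm (Fin n)) (S : Finset (Fin n)) (i : Fin n) : ℕ :=
  (S.filter fun j => i < j ∧ σ j < σ i).card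

lemma eq_of_card_filter_lt {T : Finset (Fin n)} {x y : Fin n} (hx : x ∈ T) (hy : y ∈ T)
    (h : (T.filter (· < x)).card = (T.filter (· < y)).card) : x = y := by
  have key : ∀ x y : Fin n, x ∈ T → x < y →
      (T.filter (· < x)).card < (T.filter (· < y)).card := by
    intro x y hx hxy
    refine card_lt_card ⟨fun z hz => ?_, fun hc => ?_⟩
    · rw [mem_filter] at hz ⊢
      exact ⟨hz.1, hz.2.trans hxy⟩
    · have := hc (mem_filter.2 ⟨hx, hxy⟩)
      simp at this
  rcases lt_trichotomy x y with hl | hl | hl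
  · exact absurd h (key x y hx hl).ne
  · exact hl
  · exact absurd h (key y x hy hl).ne'

lemma code_eq_card_image (σ : Perm (Fin n)) (S : Finset (Fin n)) (i : Fin n) :
    code σ S i = (((S.filter (i ≤ ·)).image σ).filter (· < σ i)).card := by
  rw [code, filter_image, card_image_of_injective _ σ.injective, filter_filter]
  congr 1
  refine filter_congr fun j _ => ⟨fun h => ⟨h.1.le, h.2⟩, fun h => ⟨lt_of_le_of_ne h.1 ?_, h.2⟩⟩
  rintro rfl
  exact lt_irrefl _ h.2

lemma lehmer_ext {σ τ : Perm (Fin n)} {S : Finset (Fin n)} (hS : S.image σ = S.image τ) (a : ℕ)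
    (hc : ∀ i ∈ S, i.val < a → code σ S i = code τ S i) :
    ∀ i ∈ S, i.val < a → σ i = τ i := by
  intro i
  induction i using WellFoundedLT.induction with
  | ind i ih =>
    intro hi hia
    have key : ∀ σ τ : Perm (Fin n), S.image σ = S.image τ → (∀ j ∈ S, j < i → σ j = τ j) →
        (S.filter (i ≤ ·)).image σ ⊆ (S.filter (i ≤ ·)).image τ := by
      intro σ τ hS h y hy
      obtain ⟨j, hj, rfl⟩ := mem_image.1 hy
      rw [mem_filter] at hj
      have : σ j ∈ S.image τ := hS ▸ mem_image_of_mem _ hj.1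
      obtain ⟨j', hj', e⟩ := mem_image.1 this
      refine mem_image.2 ⟨j', mem_filter.2 ⟨hj', ?_⟩, e⟩
      by_contra hlt
      push Not at hlt
      rw [← h j' hj' hlt] at e
      have := σ.injective e
      subst this
      exact absurd hj.2 (not_le.2 hlt)
    have ih' : ∀ j ∈ S, j < i → σ j = τ j := fun j hj hji =>
      ih j hji hj (lt_trans (Fin.lt_def.1 hji) hia)
    have e : (S.filter (i ≤ ·)).image σ = (S.filter (i ≤ ·)).image τ :=
      Subset.antisymm (key σ τ hS ih') (key τ σ hS.symm fun j hj hji => (ih' j hj hji).symm)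
    have h1 := hc i hi hia
    rw [code_eq_card_image, code_eq_card_image, ← e] at h1
    refine eq_of_card_filter_lt ?_ ?_ h1
    · exact mem_image_of_mem _ (mem_filter.2 ⟨hi, le_rfl⟩)
    · rw [e]; exact mem_image_of_mem _ (mem_filter.2 ⟨hi, le_rfl⟩)

lemma code_lt (σ : Perm (Fin n)) (i : Fin n) : code σ univ i < n - i.val := by
  have h1 : code σ univ i ≤ (Ioi i).card :=
    card_le_card fun j hj => mem_Ioi.2 (mem_filter.1 hj).2.1
  rw [Fin.card_Ioi] at h1
  have := i.2
  omega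

lemma exists_code (c : Fin n → ℕ) (hc : ∀ i, c i + i.val < n) :
    ∃ σ : Perm (Fin n), ∀ i, code σ univ i = c i := by
  let F : Perm (Fin n) → (∀ i : Fin n, Fin (n - i.val)) := fun σ i => ⟨code σ univ i, code_lt σ i⟩
  have hinj : Function.Injective F := by
    intro σ τ h
    ext i
    rw [lehmer_ext (S := univ) (by simp) n (fun i _ _ => ?_) i (mem_univ _) i.2]
    exact congrArg Fin.val (congrFun h i)
  have hbij : Function.Bijective F := by
    rw [Fintype.bijective_iff_injective_and_card]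
    refine ⟨hinj, ?_⟩
    rw [Fintype.card_perm, Fintype.card_pi]
    simp only [Fintype.card_fin]
    rw [Fin.prod_univ_eq_prod_range (fun i => n - i), ← Nat.descFactorial_eq_prod_range,
      Nat.descFactorial_self]
  obtain ⟨σ, hσ⟩ := hbij.2 fun i => ⟨c i, by have := hc i; omega⟩
  exact ⟨σ, fun i => congrArg Fin.val (congrFun hσ i)⟩

/-- The permutation avoids 132. -/
def No132 (σ : Perm (Fin n)) : Prop :=
  ∀ a b c : Fin n, a < b → b < c → σ a < σ c → σ c < σ b → False

lemma no132_of_antitone {σ : Perm (Fin n)}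
    (h : ∀ i j, i ≤ j → code σ univ j ≤ code σ univ i) : No132 σ := by
  have adj : ∀ a b c : Fin n, a.val + 1 = b.val → b < c → σ a < σ c → σ c < σ b → False := by
    intro a b c hab hbc h1 h2
    have h3 : code σ univ a < code σ univ b := by
      refine card_lt_card ⟨fun z hz => ?_, fun hc => ?_⟩
      · simp only [mem_filter, mem_univ, true_and] at hz ⊢
        refine ⟨?_, hz.2.trans (h1.trans h2)⟩
        have hne : z ≠ b := by
          rintro rfl
          exact lt_asymm hz.2 (h1.trans h2)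
        have := hz.1
        have hne' : z.val ≠ b.val := fun e => hne (Fin.ext e)
        simp only [Fin.lt_def] at this ⊢
        omega
      · have := hc (show c ∈ _ from mem_filter.2 ⟨mem_univ _, hbc, h2⟩)
        exact lt_asymm h1 (mem_filter.1 this).2.2
    exact absurd (h a b (by rw [Fin.le_def]; omega)) (not_le.2 h3)
  intro a b c
  induction a using WellFoundedGT.induction with
  | ind a ih =>
    intro hab hbc h1 h2
    have hab' := Fin.lt_def.1 hab
    set a' : Fin n := ⟨a.val + 1, by have := b.2; omega⟩ with ha'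
    have haa : a < a' := by simp [Fin.lt_def, ha']
    rcases lt_trichotomy (σ a') (σ c) with hl | hl | hl
    · refine ih a' haa ?_ hbc hl h2
      have hne : a' ≠ b := by
        rintro e
        rw [e] at hl
        exact lt_asymm hl h2
      have hne' : a'.val ≠ b.val := fun e => hne (Fin.ext e)
      simp only [Fin.lt_def, ha'] at hne' ⊢
      omega
    · have := σ.injective hl
      have h5 := congrArg Fin.val this
      simp only [ha'] at h5
      have := Fin.lt_def.1 hbc
      omega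
    · refine adj a a' c rfl ?_ h1 hl
      have := Fin.lt_def.1 hbc
      simp only [Fin.lt_def, ha']
      omega

lemma card_invs_eq_sum_code (σ : Perm (Fin n)) : (invs σ).card = ∑ i, code σ univ i := by
  rw [card_invs_eq_sum]
  simp only [code, card_filter]

lemma val_add_cocode (σ : Perm (Fin n)) (i : Fin n) :
    (σ i).val + (univ.filter fun j => j < i ∧ σ i < σ j).card = i.val + code σ univ i := by
  have h1 := card_filter_add_card_filter_not (s := univ.filter fun j => σ j < σ i) (· < i)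
  have h2 := card_filter_add_card_filter_not (s := univ.filter fun j => j < i) (fun j => σ j < σ i)
  rw [val_eq_card] at h1
  have h3 : (univ.filter fun j : Fin n => j < i).card = i.val := by
    rw [← Fin.card_Iio i]; congr 1; ext j; simp
  rw [h3] at h2
  simp only [filter_filter] at h1 h2
  have e1 : (univ.filter fun j => σ j < σ i ∧ j < i) = univ.filter fun j => j < i ∧ σ j < σ i :=
    filter_congr fun j _ => and_comm
  have e2 : (univ.filter fun j => σ j < σ i ∧ ¬ j < i) =
      univ.filter fun j => i < j ∧ σ j < σ i := by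
    refine filter_congr fun j _ => ⟨fun h => ⟨lt_of_le_of_ne (not_lt.1 h.2) ?_, h.1⟩,
      fun h => ⟨h.2, not_lt.2 h.1.le⟩⟩
    rintro rfl
    exact lt_irrefl _ h.1
  have e3 : (univ.filter fun j => j < i ∧ ¬ σ j < σ i) =
      univ.filter fun j => j < i ∧ σ i < σ j := by
    refine filter_congr fun j _ => ⟨fun h => ⟨h.1, lt_of_le_of_ne (not_lt.1 h.2) ?_⟩,
      fun h => ⟨h.1, not_lt.2 h.2.le⟩⟩
    intro e
    rw [σ.injective e] at h
    exact lt_irrefl _ h.1
  rw [e1, e2] at h1
  rw [e3] at h2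
  unfold code
  omega

/-- The 132-avoiders with `j` inversions that fix all points from `h` on. -/
noncomputable def U (n h j : ℕ) : Finset (Perm (Fin n)) :=
  univ.filter fun σ => No132 σ ∧ (invs σ).card = j ∧ ∀ i : Fin n, h ≤ i.val → σ i = i

lemma exists_decode {m b j : ℕ} (hn : 2 * m + b ≤ n) (hm : 0 < m) {l : Multiset ℕ}
    (hl : l ∈ Q m b j) :
    ∃ σ ∈ U n (2 * m + b) j, ∀ i : Fin n, code σ univ i = (l.sort (· ≥ ·)).getD i.val 0 := by
  rw [mem_Q] at hl
  obtain ⟨h1, h2, h3⟩ := hl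
  set L := l.sort (· ≥ ·) with hL
  have hlen : L.length = m := by rw [hL, Multiset.length_sort, h1]
  have hb : ∀ i, L.getD i 0 ≤ b := by
    intro i
    by_cases hi : i < L.length
    · rw [List.getD_eq_getElem _ _ hi]
      exact h2 _ ((Multiset.mem_sort _).1 (List.getElem_mem hi))
    · rw [List.getD_eq_default _ _ (not_lt.1 hi)]
      exact Nat.zero_le _
  have hz : ∀ i, m ≤ i → L.getD i 0 = 0 := fun i hi =>
    List.getD_eq_default _ _ (by omega)
  have hanti : ∀ i j, i ≤ j → L.getD j 0 ≤ L.getD i 0 := by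
    intro i j hij
    by_cases hj : j < L.length
    · rw [List.getD_eq_getElem _ _ hj, List.getD_eq_getElem _ _ (lt_of_le_of_lt hij hj)]
      rcases lt_or_eq_of_le hij with hlt | rfl
      · exact List.pairwise_iff_getElem.1 (Multiset.pairwise_sort l (· ≥ ·)) i j _ hj hlt
      · exact le_rfl
    · rw [List.getD_eq_default _ _ (not_lt.1 hj)]
      exact Nat.zero_le _
  obtain ⟨σ, hσ⟩ := exists_code (n := n) (fun i => L.getD i.val 0) (fun i => by
    by_cases hi : m ≤ i.val
    · rw [hz _ hi]; simp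
    · have := hb i.val
      omega)
  refine ⟨σ, ?_, hσ⟩
  simp only [U, mem_filter, mem_univ, true_and]
  refine ⟨no132_of_antitone fun i j hij => ?_, ?_, ?_⟩
  · rw [hσ, hσ]; exact hanti _ _ hij
  · rw [card_invs_eq_sum_code]
    simp only [hσ]
    rw [Fin.sum_univ_eq_sum_range (fun i => L.getD i 0), ← h3, ← Multiset.sort_eq l (· ≥ ·), ← hL,
      Multiset.sum_coe, ← sum_range_add_sum_Ico _ (show m ≤ n by omega),
      sum_eq_zero (s := Ico m n) (fun i hi => hz i (mem_Ico.1 hi).1), add_zero, ← hlen,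
      ← Fin.sum_univ_eq_sum_range (fun i => L.getD i 0), ← Fin.sum_univ_getElem]
    exact sum_congr rfl fun i _ => List.getD_eq_getElem _ _ i.2
  · intro i hi
    have hsub : ∀ j : Fin n, j < i → σ i < σ j → j.val < m := by
      intro j hj hj'
      by_contra hc
      have h0 : code σ univ j = 0 := by rw [hσ, hz _ (not_lt.1 hc)]
      rw [code, card_eq_zero] at h0
      have : i ∈ univ.filter fun x => j < x ∧ σ x < σ j := mem_filter.2 ⟨mem_univ _, hj, hj'⟩
      rw [h0] at this
      exact notMem_empty _ this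
    have e1 := val_add_cocode σ i
    have e2 : (univ.filter fun j => j < i ∧ σ i < σ j).card ≤ m := by
      refine (card_le_card (t := univ.filter fun j : Fin n => j.val < m) fun j hj => ?_).trans ?_
      · rw [mem_filter] at hj ⊢
        exact ⟨hj.1, hsub j hj.2.1 hj.2.2⟩
      · rw [Fin.card_filter_val_lt]; exact min_le_right _ _
    have e3 : (univ.filter fun j => j < i ∧ σ i < σ j) = ∅ := by
      refine filter_false_of_mem fun j _ hj => ?_
      have g1 := hsub j hj.1 hj.2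
      have g2 := val_add_cocode σ j
      have g3 := hb j.val
      rw [hσ] at g2
      have g4 := Fin.lt_def.1 hj.2
      omega
    rw [e3, hσ, hz _ (by omega)] at e1
    exact Fin.ext (by simpa using e1)

lemma card_Q_le_U {m b j : ℕ} (hn : 2 * m + b ≤ n) (hm : 0 < m) :
    (Q m b j).card ≤ (U n (2 * m + b) j).card := by
  refine card_le_card_of_forall_subsingleton
    (fun l σ => ∀ i : Fin n, code σ univ i = (l.sort (· ≥ ·)).getD i.val 0)
    (fun l hl => exists_decode hn hm hl) ?_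
  rintro σ - l ⟨hl, e⟩ l' ⟨hl', e'⟩
  rw [mem_Q] at hl hl'
  have h1 : l.sort (· ≥ ·) = l'.sort (· ≥ ·) := by
    refine List.ext_getElem (by simp [hl.1, hl'.1]) fun i g1 g2 => ?_
    have hi : i < n := by
      rw [Multiset.length_sort, hl.1] at g1
      omega
    have := (e ⟨i, hi⟩).symm.trans (e' ⟨i, hi⟩)
    rwa [List.getD_eq_getElem _ _ g1, List.getD_eq_getElem _ _ g2] at this
  rw [← Multiset.sort_eq l (· ≥ ·), h1, Multiset.sort_eq]

lemma U_mono {h h' j : ℕ} (hh : h ≤ h') : U n h j ⊆ U n h' j := by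
  intro σ hσ
  simp only [U, mem_filter, mem_univ, true_and] at hσ ⊢
  exact ⟨hσ.1, hσ.2.1, fun i hi => hσ.2.2 i (hh.trans hi)⟩

lemma glue {σ τ : Perm (Fin n)} {h : ℕ} (h1 : ∀ i : Fin n, h ≤ i.val → σ i = i)
    (h2 : ∀ i : Fin n, i.val < h → τ i = i) :
    (∀ i : Fin n, i.val < h → (σ * τ) i = σ i ∧ (σ i).val < h) ∧
      ∀ i : Fin n, h ≤ i.val → (σ * τ) i = τ i ∧ h ≤ (τ i).val := by
  refine ⟨fun i hi => ⟨by rw [Perm.mul_apply, h2 i hi], ?_⟩, fun i hi => ?_⟩
  · by_contra hc
    have := σ.injective (h1 _ (not_lt.1 hc))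
    rw [this] at hc
    exact hc hi
  · have : h ≤ (τ i).val := by
      by_contra hc
      have := τ.injective (h2 _ (not_le.1 hc))
      rw [this] at hc
      exact hc hi
    exact ⟨by rw [Perm.mul_apply, h1 _ this], this⟩

lemma sum_U_le {h : ℕ} (hn : 2 * h ≤ n) (j : ℕ) :
    ∑ j2 ∈ range (j + 1), (U n h (j - j2)).card * (U n h j2).card ≤ (Av n j).card := by
  simp only [← card_product]
  rw [← card_sigma]
  have hrc : ∀ τ : Perm (Fin n), (∀ i : Fin n, h ≤ i.val → τ i = i) →
      ∀ i : Fin n, i.val < h → rc τ i = i := by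
    intro τ hτ i hi
    rw [rc_apply, hτ _ (by rw [Fin.val_rev]; omega), Fin.rev_rev]
  refine card_le_card_of_injOn (fun x => x.2.1 * rc x.2.2) ?_ ?_
  · rintro ⟨j2, σ, τ⟩ hx
    simp only [coe_sigma, Set.mem_sigma_iff, mem_coe, mem_range, mem_product, U, mem_filter,
      mem_univ, true_and] at hx
    obtain ⟨hj, ⟨a1, a2, a3⟩, ⟨b1, b2, b3⟩⟩ := hx
    have b4 := hrc τ b3
    obtain ⟨g1, g2⟩ := glue a3 b4
    simp only [mem_coe, mem_Av]
    constructor
    · rintro ⟨a, b, c, d, h1, h2, h3, h4, h5, h6⟩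
      by_cases hc : c.val < h
      · have hb : b.val < h := lt_trans h2 hc
        have ha : a.val < h := lt_trans h1 hb
        rw [(g1 a ha).1, (g1 c hc).1] at h4
        rw [(g1 b hb).1, (g1 c hc).1] at h5
        exact a1 a b c h1 h2 h4 h5
      · have hc' := not_lt.1 hc
        have hb : h ≤ b.val := by
          by_contra hb
          have e1 := g1 b (not_le.1 hb)
          have e2 := g2 c hc'
          rw [e1.1, e2.1, Fin.lt_def] at h5
          omega
        have hd : h ≤ d.val := le_trans hc' (le_of_lt h3)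
        rw [(g2 b hb).1, (g2 c hc').1] at h5
        rw [(g2 b hb).1, (g2 d hd).1] at h6
        simp only [rc_apply, Fin.rev_lt_rev] at h5 h6
        exact b1 d.rev c.rev b.rev (Fin.rev_lt_rev.2 h3) (Fin.rev_lt_rev.2 h2) h6 h5
    · have e : invs (σ * rc τ) = invs σ ∪ invs (rc τ) := by
        ext ⟨x, y⟩
        simp only [mem_union, mem_invs]
        by_cases hx : x.val < h <;> by_cases hy : y.val < h
        · rw [(g1 x hx).1, (g1 y hy).1, b4 x hx, b4 y hy]
          exact ⟨Or.inl, fun h => h.elim id fun h => absurd h.1 (lt_asymm h.2)⟩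
        · have e1 := g1 x hx
          have e2 := g2 y (not_lt.1 hy)
          rw [e1.1, e2.1, b4 x hx, a3 y (not_lt.1 hy)]
          simp only [Fin.lt_def]
          omega
        · simp only [Fin.lt_def]
          omega
        · rw [(g2 x (not_lt.1 hx)).1, (g2 y (not_lt.1 hy)).1, a3 x (not_lt.1 hx),
            a3 y (not_lt.1 hy)]
          exact ⟨Or.inr, fun h => h.elim (fun h => absurd h.1 (lt_asymm h.2)) id⟩
      rw [e, card_union_of_disjoint, a2, card_invs_rc, b2]
      · omega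
      · rw [disjoint_left]
        rintro ⟨x, y⟩ p1 p2
        simp only [mem_invs] at p1 p2
        by_cases hx : x.val < h
        · have hy : h ≤ y.val := by
            by_contra hy
            rw [b4 x hx, b4 y (not_le.1 hy)] at p2
            exact lt_asymm p2.1 p2.2
          have e1 := (g1 x hx).2
          rw [a3 y hy, Fin.lt_def, Fin.lt_def] at p1
          omega
        · rw [a3 x (not_lt.1 hx), a3 y (le_trans (not_lt.1 hx) (le_of_lt p1.1))] at p1
          exact lt_asymm p1.1 p1.2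
  · rintro ⟨j2, σ, τ⟩ hx ⟨j3, σ', τ'⟩ hx' e
    simp only [coe_sigma, Set.mem_sigma_iff, mem_coe, mem_range, mem_product, U, mem_filter,
      mem_univ, true_and] at hx hx'
    obtain ⟨hj, ⟨a1, a2, a3⟩, ⟨b1, b2, b3⟩⟩ := hx
    obtain ⟨hj', ⟨a1', a2', a3'⟩, ⟨b1', b2', b3'⟩⟩ := hx'
    simp only at e
    have e1 : σ = σ' := by
      refine Equiv.ext fun i => ?_
      by_cases hi : i.val < h
      · rw [← ((glue a3 (hrc τ b3)).1 i hi).1, ← ((glue a3' (hrc τ' b3')).1 i hi).1, e]
      · rw [a3 i (not_lt.1 hi), a3' i (not_lt.1 hi)]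
    subst e1
    have e2 : τ = τ' := rc_injective (mul_left_cancel e)
    subst e2
    have e3 : j2 = j3 := b2.symm.trans b2'
    subst e3
    rfl

lemma sum_Q_le {L : ℕ} (hL : 0 < L) (hn : 26 * L ≤ n) (j : ℕ) :
    ∑ j2 ∈ range (j + 1), (Q (6 * L) L (j - j2)).card * (Q (5 * L) L j2).card ≤
      (Av n j).card := by
  refine le_trans (sum_le_sum fun j2 _ => ?_) (sum_U_le (h := 13 * L) (by omega) j)
  refine Nat.mul_le_mul ?_ ?_
  · exact (card_Q_le_U (n := n) (by omega) (by omega)).trans (card_le_card (U_mono (by omega)))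
  · exact (card_Q_le_U (n := n) (by omega) (by omega)).trans (card_le_card (U_mono (by omega)))

end Pool.Agent.MP_45d82d_co

end MrgPart3

-- ======== part 4: formerly Pool.Agent.MP_45d82d_co.Struct
section MrgPart4

/-!
Structure of 1324-avoiders with few points of large degree in the inversion graph.
-/

set_option autoImplicit false

open Finset Equiv

namespace Pool.Agent.MP_45d82d_co

open Classical

variable {n : ℕ}

/-- Positions `i` and `j` form an inversion, in either order. -/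
def Nb (σ : Perm (Fin n)) (i j : Fin n) : Prop := (i < j ∧ σ j < σ i) ∨ (j < i ∧ σ i < σ j)

/-- Degree in the inversion graph. -/
noncomputable def deg (σ : Perm (Fin n)) (i : Fin n) : ℕ := (univ.filter (Nb σ i)).card

/-- Points of large degree. -/
noncomputable def Lg (σ : Perm (Fin n)) (L : ℕ) : Finset (Fin n) :=
  univ.filter fun i => L ≤ deg σ i

/-- Points of small degree. -/
noncomputable def Sh (σ : Perm (Fin n)) (L : ℕ) : Finset (Fin n) :=
  univ.filter fun i => deg σ i < L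

/-- The number of inversions at a point of large degree. -/
noncomputable def T (σ : Perm (Fin n)) (L : ℕ) : ℕ :=
  ((invs σ).filter fun p => L ≤ deg σ p.1 ∨ L ≤ deg σ p.2).card

/-- The number of inversions between points of small degree at the beginning. -/
noncomputable def J (σ : Perm (Fin n)) (L : ℕ) : ℕ :=
  ((invs σ).filter fun p => deg σ p.1 < L ∧ deg σ p.2 < L ∧ p.1.val < 5 * L).card

lemma deg_inv (σ : Perm (Fin n)) (i : Fin n) : deg σ⁻¹ (σ i) = deg σ i := by
  symm
  refine card_equiv σ fun j => ?_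
  simp only [Nb, mem_filter, mem_univ, true_and, Perm.coe_inv, symm_apply_apply]
  tauto

lemma deg_rc (σ : Perm (Fin n)) (i : Fin n) : deg (rc σ) i.rev = deg σ i := by
  symm
  refine card_equiv Fin.revPerm fun j => ?_
  simp only [Nb, mem_filter, mem_univ, true_and, Fin.revPerm_apply, rc_apply, Fin.rev_rev,
    Fin.rev_lt_rev]
  tauto

lemma T_inv (σ : Perm (Fin n)) (L : ℕ) : T σ⁻¹ L = T σ L := by
  symm
  refine card_equiv ((Equiv.prodComm _ _).trans (σ.prodCongr σ)) fun p => ?_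
  simp only [mem_filter, mem_invs, Equiv.trans_apply, prodComm_apply, prodCongr_apply,
    Prod.map_fst, Prod.map_snd, Prod.fst_swap, Prod.snd_swap, deg_inv, Perm.coe_inv,
    symm_apply_apply]
  tauto

lemma T_rc (σ : Perm (Fin n)) (L : ℕ) : T (rc σ) L = T σ L := by
  symm
  refine card_equiv ((Equiv.prodComm _ _).trans (Fin.revPerm.prodCongr Fin.revPerm)) fun p => ?_
  simp only [mem_filter, mem_invs, Equiv.trans_apply, prodComm_apply, prodCongr_apply,
    Prod.map_fst, Prod.map_snd, Prod.fst_swap, Prod.snd_swap, Fin.revPerm_apply, deg_rc,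
    rc_apply, Fin.rev_rev, Fin.rev_lt_rev]
  tauto

lemma J_rc (σ : Perm (Fin n)) (L : ℕ) : J (rc σ) L =
    ((invs σ).filter fun p => deg σ p.1 < L ∧ deg σ p.2 < L ∧ p.2.rev.val < 5 * L).card := by
  symm
  refine card_equiv ((Equiv.prodComm _ _).trans (Fin.revPerm.prodCongr Fin.revPerm)) fun p => ?_
  simp only [mem_filter, mem_invs, Equiv.trans_apply, prodComm_apply, prodCongr_apply,
    Prod.map_fst, Prod.map_snd, Prod.fst_swap, Prod.snd_swap, Fin.revPerm_apply, deg_rc,
    rc_apply, Fin.rev_rev, Fin.rev_lt_rev]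
  tauto

lemma T_le (σ : Perm (Fin n)) (L : ℕ) : T σ L ≤ (invs σ).card := card_filter_le _ _

lemma card_Lg_rc (σ : Perm (Fin n)) (L : ℕ) : (Lg (rc σ) L).card = (Lg σ L).card := by
  symm
  refine card_equiv Fin.revPerm fun j => ?_
  simp [Lg, deg_rc]

lemma code_le_deg (σ : Perm (Fin n)) (S : Finset (Fin n)) (i : Fin n) : code σ S i ≤ deg σ i :=
  card_le_card fun _ hj => mem_filter.2 ⟨mem_univ _, Or.inl (mem_filter.1 hj).2⟩

lemma val_le_deg (σ : Perm (Fin n)) (i : Fin n) :
    (σ i).val ≤ i.val + deg σ i ∧ i.val ≤ (σ i).val + deg σ i := by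
  have h1 := val_add_cocode σ i
  have h2 := code_le_deg σ univ i
  have h3 : (univ.filter fun j => j < i ∧ σ i < σ j).card ≤ deg σ i :=
    card_le_card fun j hj => mem_filter.2 ⟨mem_univ _, Or.inr (mem_filter.1 hj).2⟩
  omega

lemma card_Lg_mul_le (σ : Perm (Fin n)) (L : ℕ) : (Lg σ L).card * L ≤ 2 * T σ L := by
  have h1 : (Lg σ L).card * L ≤ ∑ i ∈ Lg σ L, deg σ i := by
    rw [← smul_eq_mul]
    exact card_nsmul_le_sum _ _ _ fun i hi => (mem_filter.1 hi).2
  have h2 : ∑ i ∈ Lg σ L, deg σ i =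
      ((Lg σ L ×ˢ (univ : Finset (Fin n))).filter fun p => Nb σ p.1 p.2).card := by
    rw [card_filter, sum_product]
    simp only [deg, card_filter]
  set A := (invs σ).filter fun p => L ≤ deg σ p.1 ∨ L ≤ deg σ p.2 with hA
  have h3 : ((Lg σ L ×ˢ (univ : Finset (Fin n))).filter fun p => Nb σ p.1 p.2) ⊆
      A ∪ A.image Prod.swap := by
    rintro ⟨i, j⟩ hp
    simp only [mem_filter, mem_product, mem_univ, and_true, Lg, true_and] at hp
    rcases hp.2 with h | h
    · exact mem_union_left _ (mem_filter.2 ⟨mem_invs.2 h, Or.inl hp.1⟩)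
    · exact mem_union_right _ (mem_image.2 ⟨(j, i), mem_filter.2 ⟨mem_invs.2 h, Or.inr hp.1⟩, rfl⟩)
  have h4 := (card_le_card h3).trans (card_union_le _ _)
  have h5 : (A.image Prod.swap).card ≤ A.card := card_image_le
  have h6 : T σ L = A.card := rfl
  omega

lemma card_window (a b : ℕ) (hb : b ≤ n) :
    (univ.filter fun i : Fin n => a ≤ i.val ∧ i.val < b).card = b - a := by
  have h1 := card_filter_add_card_filter_not (s := univ.filter fun i : Fin n => i.val < b)
    (fun i => i.val < a)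
  rw [Fin.card_filter_val_lt, filter_filter, filter_filter, min_eq_right hb] at h1
  have e1 : (univ.filter fun i : Fin n => i.val < b ∧ i.val < a) =
      univ.filter fun i : Fin n => i.val < min a b := filter_congr fun i _ => by omega
  have e2 : (univ.filter fun i : Fin n => i.val < b ∧ ¬ i.val < a) =
      univ.filter fun i : Fin n => a ≤ i.val ∧ i.val < b := filter_congr fun i _ => by omega
  rw [e1, e2, Fin.card_filter_val_lt] at h1
  omega

lemma exists_short {σ : Perm (Fin n)} {L : ℕ} (hr : (Lg σ L).card ≤ L) (a : ℕ)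
    (ha : a + L < n) : ∃ s : Fin n, deg σ s < L ∧ a ≤ s.val ∧ s.val ≤ a + L := by
  have h1 := card_window (n := n) a (a + L + 1) ha
  obtain ⟨s, hs1, hs2⟩ := exists_mem_notMem_of_card_lt_card
    (s := Lg σ L) (t := univ.filter fun i : Fin n => a ≤ i.val ∧ i.val < a + L + 1) (by omega)
  simp only [Lg, mem_filter, mem_univ, true_and] at hs1 hs2
  exact ⟨s, by omega, by omega, by omega⟩

lemma short_near {σ : Perm (Fin n)} {L : ℕ} {i j : Fin n} (hi : deg σ i < L) (hj : deg σ j < L)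
    (h : σ j < σ i) : j.val < i.val + 2 * L := by
  have h1 := val_le_deg σ i
  have h2 := val_le_deg σ j
  rw [Fin.lt_def] at h
  omega

lemma short_inv {σ : Perm (Fin n)} {L : ℕ} (hav : Avoid σ) (hr : (Lg σ L).card ≤ L)
    {i j : Fin n} (hi : deg σ i < L) (hj : deg σ j < L) (hij : i < j)
    (h : σ j < σ i) : j.val < 5 * L ∨ n ≤ i.val + 5 * L := by
  by_contra hc
  push Not at hc
  have h0 := short_near hi hj h
  obtain ⟨s, hs, -, hs2⟩ := exists_short hr 0 (by omega)
  obtain ⟨s', hs', hs1', -⟩ := exists_short hr (n - 1 - L) (by omega)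
  have h1 := val_le_deg σ i
  have h2 := val_le_deg σ j
  have h3 := val_le_deg σ s
  have h4 := val_le_deg σ s'
  refine hav ⟨s, i, j, s', ?_, hij, ?_, ?_, h, ?_⟩ <;> rw [Fin.lt_def] <;> omega

lemma code_antitone {σ : Perm (Fin n)} {L : ℕ} (hav : Avoid σ) (hr : (Lg σ L).card ≤ L)
    (hn : 10 * L ≤ n) {i i' : Fin n} (hi' : deg σ i' < L) (hii : i < i') (h5 : i'.val < 5 * L) :
    code σ (Sh σ L) i' ≤ code σ (Sh σ L) i := by
  refine card_le_card fun j hj => ?_
  simp only [Sh, mem_filter, mem_univ, true_and] at hj ⊢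
  obtain ⟨hj, h1, h2⟩ := hj
  refine ⟨hj, hii.trans h1, ?_⟩
  by_contra hc
  have hlt : σ i < σ j :=
    lt_of_le_of_ne (not_lt.1 hc) fun e => (hii.trans h1).ne (σ.injective e)
  have h0 := short_near hi' hj h2
  obtain ⟨s', hs', hs1', -⟩ := exists_short hr (n - 1 - L) (by omega)
  have h3 := val_le_deg σ i'
  have h4 := val_le_deg σ s'
  refine hav ⟨i, i', j, s', hii, h1, ?_, hlt, h2, ?_⟩ <;> rw [Fin.lt_def] <;> omega

lemma J_add_le {σ : Perm (Fin n)} {L : ℕ} (hn : 12 * L ≤ n) :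
    J σ L + J (rc σ) L + T σ L ≤ (invs σ).card := by
  rw [J_rc, J, T, ← card_union_of_disjoint, ← card_union_of_disjoint]
  · refine card_le_card (union_subset (union_subset ?_ ?_) ?_) <;> exact filter_subset _ _
  · rw [disjoint_left]
    intro p h1 h2
    simp only [mem_union, mem_filter] at h1 h2
    omega
  · rw [disjoint_left]
    intro p h1 h2
    simp only [mem_filter, mem_invs, Fin.val_rev] at h1 h2
    have := short_near h1.2.1 h1.2.2.1 h1.1.2
    omega

/-- The multiset of codes of the points of small degree at the beginning. -/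
noncomputable def lam (σ : Perm (Fin n)) (L : ℕ) : Multiset ℕ :=
  (univ.filter fun i : Fin n => i.val < 5 * L).val.map
    fun i => if deg σ i < L then code σ (Sh σ L) i else 0

lemma lam_mem (σ : Perm (Fin n)) {L : ℕ} (hn : 5 * L ≤ n) : lam σ L ∈ Q (5 * L) L (J σ L) := by
  rw [mem_Q]
  refine ⟨?_, fun x hx => ?_, ?_⟩
  · rw [lam, Multiset.card_map, card_val, Fin.card_filter_val_lt, min_eq_right hn]
  · obtain ⟨i, -, rfl⟩ := Multiset.mem_map.1 hx
    have := code_le_deg σ (Sh σ L) i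
    split_ifs <;> omega
  · rw [lam, ← sum_eq_multiset_sum, J, invs, filter_filter, card_filter, Fintype.sum_prod_type,
      sum_filter]
    refine sum_congr rfl fun i _ => ?_
    by_cases h1 : i.val < 5 * L <;> by_cases h2 : deg σ i < L
    · simp only [h1, h2, if_true, true_and, and_true, code, Sh, filter_filter, card_filter]
      exact sum_congr rfl fun j _ => if_congr and_comm rfl rfl
    all_goals simp [h1, h2]

lemma antitone_ext {S : Finset (Fin n)} {f g : Fin n → ℕ}
    (hf : ∀ i ∈ S, ∀ j ∈ S, i < j → f j ≤ f i) (hg : ∀ i ∈ S, ∀ j ∈ S, i < j → g j ≤ g i)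
    (h : S.val.map f = S.val.map g) : ∀ i ∈ S, f i = g i := by
  have key : ∀ f : Fin n → ℕ, (∀ i ∈ S, ∀ j ∈ S, i < j → f j ≤ f i) →
      ((S.sort (· ≤ ·)).map f).Pairwise (· ≥ ·) := by
    intro f hf
    rw [List.pairwise_map]
    refine List.Pairwise.imp_of_mem ?_ (sortedLT_sort S).pairwise
    intro a b ha hb hab
    exact hf a ((mem_sort _).1 ha) b ((mem_sort _).1 hb) hab
  rw [← sort_eq S (· ≤ ·), Multiset.map_coe, Multiset.map_coe, Multiset.coe_eq_coe] at h
  have e := h.eq_of_pairwise' (key f hf) (key g hg)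
  intro i hi
  exact List.map_inj_left.1 e i ((mem_sort _).2 hi)

lemma eq_of_lam_eq {σ τ : Perm (Fin n)} {L : ℕ} (hσ : Avoid σ) (hτ : Avoid τ)
    (hr : (Lg σ L).card ≤ L) (hn : 10 * L ≤ n) (hd : ∀ i, L ≤ deg σ i ↔ L ≤ deg τ i)
    (hv : ∀ i, L ≤ deg σ i → σ i = τ i) (hl : lam σ L = lam τ L) :
    ∀ i : Fin n, i.val + 5 * L < n → σ i = τ i := by
  have hLg : Lg τ L = Lg σ L := filter_congr fun i _ => (hd i).symm
  have hd' : ∀ i, deg τ i < L ↔ deg σ i < L := fun i => by have := hd i; omega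
  have hSh : Sh τ L = Sh σ L := filter_congr fun i _ => hd' i
  have hr' : (Lg τ L).card ≤ L := hLg ▸ hr
  have himg : (Sh σ L).image σ = (Sh σ L).image τ := by
    have key : ∀ a b : Perm (Fin n), (∀ i, L ≤ deg σ i → a i = b i) →
        (Sh σ L).image a ⊆ (Sh σ L).image b := by
      intro a b hab y hy
      obtain ⟨i, hi, rfl⟩ := mem_image.1 hy
      refine mem_image.2 ⟨b⁻¹ (a i), ?_, by simp⟩
      simp only [Sh, mem_filter, mem_univ, true_and] at hi ⊢
      by_contra hc
      have h1 := hab _ (not_lt.1 hc)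
      have h2 : a (b⁻¹ (a i)) = a i := by rw [h1]; simp
      rw [a.injective h2] at hc
      exact hc hi
    exact Subset.antisymm (key σ τ hv) (key τ σ fun i hi => (hv i hi).symm)
  set S := univ.filter fun i : Fin n => i.val < 5 * L ∧ deg σ i < L with hS
  have hsplit : ∀ f : Fin n → ℕ,
      (univ.filter fun i : Fin n => i.val < 5 * L).val.map
        (fun i => if deg σ i < L then f i else 0) =
      S.val.map f + ((univ.filter fun i : Fin n => i.val < 5 * L).filter
        fun i => ¬ deg σ i < L).val.map fun _ => 0 := by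
    intro f
    conv_lhs => rw [← Multiset.filter_add_not (fun i => deg σ i < L)
      (univ.filter fun i : Fin n => i.val < 5 * L).val]
    rw [Multiset.map_add]
    congr 1
    · rw [← filter_val, filter_filter]
      refine Multiset.map_congr rfl fun i hi => if_pos ?_
      rw [mem_val, mem_filter] at hi
      exact hi.2.2
    · rw [← filter_val]
      refine Multiset.map_congr rfl fun i hi => if_neg ?_
      rw [mem_val, mem_filter] at hi
      exact hi.2
  have hl' : S.val.map (code σ (Sh σ L)) = S.val.map (code τ (Sh σ L)) := by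
    simp only [lam, hd', hSh] at hl
    rw [hsplit, hsplit] at hl
    exact add_right_cancel hl
  have hlow := antitone_ext
    (fun i _ j hj hij => code_antitone hσ hr hn (mem_filter.1 hj).2.2 hij (mem_filter.1 hj).2.1)
    (fun i _ j hj hij => hSh ▸ code_antitone hτ hr' hn ((hd' j).2 (mem_filter.1 hj).2.2) hij
      (mem_filter.1 hj).2.1) hl'
  have hmid : ∀ a : Perm (Fin n), Avoid a → (Lg a L).card ≤ L → ∀ i : Fin n, deg a i < L →
      5 * L ≤ i.val → i.val + 5 * L < n → code a (Sh a L) i = 0 := by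
    intro a ha hra i hi h1 h2
    rw [code, card_eq_zero]
    refine filter_false_of_mem fun j hj hc => ?_
    have := short_inv ha hra hi (mem_filter.1 hj).2 hc.1 hc.2
    have := Fin.lt_def.1 hc.1
    omega
  intro i hi
  by_cases hs : deg σ i < L
  · refine lehmer_ext himg (n - 5 * L) (fun j hj hj' => ?_) i (mem_filter.2 ⟨mem_univ _, hs⟩)
      (by omega)
    have hjs := (mem_filter.1 hj).2
    by_cases h5 : j.val < 5 * L
    · exact hlow j (mem_filter.2 ⟨mem_univ _, h5, hjs⟩)
    · rw [hmid σ hσ hr j hjs (by omega) (by omega), ← hSh,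
        hmid τ hτ hr' j ((hd' j).2 hjs) (by omega) (by omega)]
  · exact hv i (not_lt.1 hs)

lemma ad_of_arm {σ : Perm (Fin (n + 1))} {L : ℕ} (hav : Avoid σ) (hr : (Lg σ L).card ≤ L)
    (hL : 0 < L) (hn : 50 * L ≤ n + 1) (hT : T σ L < n + 1 + 10 * L) (harm : 21 * L ≤ Lf σ) :
    AD σ := by
  have hex : ∃ d : Fin (n + 1), 5 * L ≤ d.val ∧ ∀ e, Nb σ d e → e = 0 := by
    by_contra hc
    push Not at hc
    set A := (invs σ).filter fun p => L ≤ deg σ p.1 ∨ L ≤ deg σ p.2 with hA
    have h1 := card_filter_add_card_filter_not (s := A) (fun p => p.1 = 0)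
    have h0 : L ≤ deg σ 0 := by
      have := val_le_deg σ 0
      simp only [Lf, Fin.val_zero] at harm this
      omega
    have h2 : (univ.filter fun j => σ j < σ 0).card ≤ (A.filter fun p => p.1 = 0).card := by
      refine card_le_card_of_injOn (fun j => (0, j)) (fun j hj => ?_) fun j _ j' _ h => ?_
      · simp only [coe_filter, mem_univ, true_and, Set.mem_ofPred_eq, hA, mem_filter,
          mem_invs] at hj ⊢
        refine ⟨⟨⟨Fin.pos_iff_ne_zero.2 ?_, hj⟩, Or.inl h0⟩, trivial⟩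
        rintro rfl
        exact lt_irrefl _ hj
      · exact (Prod.mk.inj h).2
    rw [val_eq_card] at h2
    set W := univ.filter fun i : Fin (n + 1) => 5 * L ≤ i.val ∧ i.val < n + 1 - 5 * L with hW
    have h3 : W.card = n + 1 - 5 * L - 5 * L := card_window _ _ (by omega)
    have h4 : (W \ Lg σ L).card ≤ (A.filter fun p => ¬ p.1 = 0).card := by
      refine card_le_card_of_forall_subsingleton
        (fun d p => (p.1 = d ∧ L ≤ deg σ p.2) ∨ (p.2 = d ∧ L ≤ deg σ p.1)) ?_ ?_
      · intro d hd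
        simp only [hW, Lg, mem_sdiff, mem_filter, mem_univ, true_and, not_le] at hd
        obtain ⟨e, he, he0⟩ := hc d hd.1.1
        rcases he with he | he
        · have hl : L ≤ deg σ e := by
            by_contra hl
            have := short_inv hav hr hd.2 (not_le.1 hl) he.1 he.2
            have := Fin.lt_def.1 he.1
            omega
          refine ⟨(d, e), mem_filter.2 ⟨mem_filter.2 ⟨mem_invs.2 he, Or.inr hl⟩, ?_⟩,
            Or.inl ⟨rfl, hl⟩⟩
          rintro rfl
          have := hd.1.1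
          simp only [Fin.val_zero] at this
          omega
        · have hl : L ≤ deg σ e := by
            by_contra hl
            have := short_inv hav hr (not_le.1 hl) hd.2 he.1 he.2
            have := Fin.lt_def.1 he.1
            omega
          exact ⟨(e, d), mem_filter.2 ⟨mem_filter.2 ⟨mem_invs.2 he, Or.inl hl⟩, he0⟩,
            Or.inr ⟨rfl, hl⟩⟩
      · rintro p - d ⟨hd, e⟩ d' ⟨hd', e'⟩
        simp only [hW, Lg, mem_sdiff, mem_filter, mem_univ, true_and, not_le] at hd hd'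
        rcases e with ⟨rfl, e⟩ | ⟨rfl, e⟩ <;> rcases e' with ⟨e1, e'⟩ | ⟨e1, e'⟩
        · exact e1
        · omega
        · omega
        · exact e1
    have h5 := le_card_sdiff (Lg σ L) W
    have h6 : T σ L = A.card := rfl
    simp only [Lf] at harm
    omega
  obtain ⟨d, hd, hnb⟩ := hex
  obtain ⟨π, hπ⟩ := exists_ins σ 0
  have hd2 := d.2
  refine ⟨π, hπ, d.val - 1, cut_of_order (by omega) (by omega) fun i j hi hj => ?_⟩
  have e1 : σ i.succ = (σ 0).succAbove (π i) := by
    conv_lhs => rw [hπ]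
    exact ins_zero_succ _ _ _
  have e2 : σ j.succ = (σ 0).succAbove (π j) := by
    conv_lhs => rw [hπ]
    exact ins_zero_succ _ _ _
  rw [← Fin.succAbove_lt_succAbove_iff (p := σ 0), ← e1, ← e2]
  have g1 : σ i.succ < σ d := by
    have hlt : i.succ < d := by rw [Fin.lt_def, Fin.val_succ]; omega
    refine lt_of_le_of_ne (not_lt.1 fun hc => ?_) fun e => hlt.ne (σ.injective e)
    exact Fin.succ_ne_zero _ (hnb _ (Or.inr ⟨hlt, hc⟩))
  have g2 : σ d ≤ σ j.succ := by
    refine not_lt.1 fun hc => ?_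
    have hlt : d < j.succ := by
      refine lt_of_le_of_ne (by rw [Fin.le_def, Fin.val_succ]; omega) ?_
      rintro e
      rw [e] at hc
      exact lt_irrefl _ hc
    exact Fin.succ_ne_zero _ (hnb _ (Or.inl ⟨hlt, hc⟩))
  exact g1.trans_le g2

lemma exists_arm {σ : Perm (Fin (n + 1))} {L : ℕ} (hav : Avoid σ) (hr : (Lg σ L).card ≤ L)
    (hL : 0 < L) (hn : 50 * L ≤ n + 1) (hind : ¬ Dec σ) :
    21 * L ≤ Lf σ ∨ 21 * L ≤ Bt σ ∨ 21 * L ≤ Rt σ ∨ 21 * L ≤ Tp σ := by
  by_contra hc
  push Not at hc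
  obtain ⟨a1, a2, a3, a4⟩ := hc
  rw [Rt_eq] at a3
  rw [Tp_eq] at a4
  simp only [Bt, Lf] at a1 a2
  obtain ⟨d, hd, hd1, hd2⟩ := exists_short hr (23 * L) (by omega)
  have hv := val_le_deg σ d
  have hex : ∃ e, Nb σ d e := by
    by_contra hc
    push Not at hc
    refine hind ⟨d.val, cut_of_order (by omega) d.2 fun i j hi hj => ?_⟩
    have g1 : σ i < σ d :=
      lt_of_le_of_ne (not_lt.1 fun h => hc i (Or.inr ⟨hi, h⟩))
        fun e => (Fin.lt_def.2 hi).ne (σ.injective e)
    have g2 : σ d ≤ σ j := by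
      refine not_lt.1 fun h => hc j (Or.inl ⟨lt_of_le_of_ne hj ?_, h⟩)
      rintro rfl
      exact lt_irrefl _ h
    exact g1.trans_le g2
  obtain ⟨e, he | he⟩ := hex
  · refine hav ⟨σ⁻¹ 0, d, e, Fin.last n, ?_, he.1, ?_, ?_, he.2, ?_⟩
    · rw [Fin.lt_def]; omega
    · refine Fin.lt_last_iff_ne_last.2 ?_
      rintro rfl
      have := Fin.lt_def.1 he.2
      omega
    · simp only [Perm.coe_inv, apply_symm_apply]
      refine Fin.pos_iff_ne_zero.2 fun h0 => ?_
      have : e = σ⁻¹ 0 := by rw [← h0]; simp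
      have h3 := Fin.lt_def.1 he.1
      rw [this] at h3
      omega
    · rw [Fin.lt_def]; omega
  · refine hav ⟨0, e, d, σ⁻¹ (Fin.last n), ?_, he.1, ?_, ?_, he.2, ?_⟩
    · refine Fin.pos_iff_ne_zero.2 ?_
      rintro rfl
      have := Fin.lt_def.1 he.2
      omega
    · rw [Fin.lt_def]; omega
    · rw [Fin.lt_def]; omega
    · simp only [Perm.coe_inv, apply_symm_apply]
      refine Fin.lt_last_iff_ne_last.2 fun h0 => ?_
      have : e = σ⁻¹ (Fin.last n) := by rw [← h0]; simp
      have h3 := Fin.lt_def.1 he.1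
      rw [this] at h3
      omega

end Pool.Agent.MP_45d82d_co

end MrgPart4

-- ======== part 5: formerly Pool.Agent.MP_45d82d_co.Final
section MrgPart5

/-!
Counting the remaining permutations, and the monotonicity theorem with explicit parameters.
-/

set_option autoImplicit false

open Finset Equiv

namespace Pool.Agent.MP_45d82d_co

open Classical

variable {n : ℕ}

lemma card_Lg_le {k L u : ℕ} (hL : 0 < L) (hu : u ≤ L) (hk : 2 * k ≤ u ^ 2)
    {σ : Perm (Fin n)} (hσ : σ ∈ Av n k) : (Lg σ L).card ≤ L := by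
  have h1 := card_Lg_mul_le σ L
  have h2 := T_le σ L
  rw [(mem_Av.1 hσ).2] at h2
  refine Nat.le_of_mul_le_mul_right ?_ hL
  nlinarith

lemma card_fiber_le {k L : ℕ} (hn : 10 * L ≤ n) (hr : ∀ σ ∈ Av n k, (Lg σ L).card ≤ L)
    (r j1 j2 : ℕ) :
    ((Av n k).filter fun σ => (Lg σ L).card = r ∧ J σ L = j1 ∧ J (rc σ) L = j2).card ≤
      (n * n) ^ r * ((Q (5 * L) L j1).card * (Q (5 * L) L j2).card) := by
  have hc : (n * n).choose r * ((Q (5 * L) L j1).card * (Q (5 * L) L j2).card) =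
      (powersetCard r (univ : Finset (Fin n × Fin n)) ×ˢ
        (Q (5 * L) L j1 ×ˢ Q (5 * L) L j2)).card := by
    simp [card_product, card_powersetCard]
  refine le_trans ?_ (Nat.mul_le_mul_right _ (Nat.choose_le_pow _ _))
  rw [hc]
  refine card_le_card_of_injOn
    (fun σ => ((Lg σ L).image fun i => (i, σ i), lam σ L, lam (rc σ) L)) ?_ ?_
  · intro σ hσ
    simp only [coe_filter, Set.mem_ofPred_eq] at hσ
    obtain ⟨-, h1, h2, h3⟩ := hσ
    simp only [mem_coe, mem_product, mem_powersetCard, subset_univ, true_and]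
    refine ⟨?_, h2 ▸ lam_mem σ (by omega), h3 ▸ lam_mem (rc σ) (by omega)⟩
    rw [card_image_of_injective _ fun i j h => (Prod.mk.inj h).1, h1]
  · intro σ hσ τ hτ h
    simp only [coe_filter, Set.mem_ofPred_eq] at hσ hτ
    simp only [Prod.mk.injEq] at h
    obtain ⟨h1, h2, h3⟩ := h
    have key : ∀ a b : Perm (Fin n),
        ((Lg a L).image fun i => (i, a i)) = ((Lg b L).image fun i => (i, b i)) →
        ∀ i, L ≤ deg a i → L ≤ deg b i ∧ a i = b i := by
      intro a b hab i hi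
      have : (i, a i) ∈ (Lg b L).image fun i => (i, b i) :=
        hab ▸ mem_image.2 ⟨i, mem_filter.2 ⟨mem_univ _, hi⟩, rfl⟩
      obtain ⟨j, hj, e⟩ := mem_image.1 this
      obtain ⟨rfl, e2⟩ := Prod.mk.inj e
      exact ⟨(mem_filter.1 hj).2, e2.symm⟩
    have hd : ∀ i, L ≤ deg σ i ↔ L ≤ deg τ i :=
      fun i => ⟨fun hi => (key σ τ h1 i hi).1, fun hi => (key τ σ h1.symm i hi).1⟩
    have hv : ∀ i, L ≤ deg σ i → σ i = τ i := fun i hi => (key σ τ h1 i hi).2
    have a1 := (mem_Av.1 hσ.1).1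
    have a2 := (mem_Av.1 hτ.1).1
    have e1 := eq_of_lam_eq a1 a2 (hr σ hσ.1) hn hd hv h2
    have e2 := eq_of_lam_eq a1.rc a2.rc (by rw [card_Lg_rc]; exact hr σ hσ.1) hn
      (fun i => by rw [← Fin.rev_rev i, deg_rc, deg_rc]; exact hd _)
      (fun i hi => by
        rw [← Fin.rev_rev i, deg_rc] at hi
        rw [rc_apply, rc_apply, hv _ hi]) h3
    refine Equiv.ext fun i => ?_
    by_cases hi : i.val + 5 * L < n
    · exact e1 i hi
    · have := e2 i.rev (by rw [Fin.val_rev]; have := i.2; omega)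
      rw [rc_apply, rc_apply, Fin.rev_rev] at this
      exact Fin.rev_injective this

lemma card_bad_le {k L u w : ℕ} (hL : 0 < L) (hn : 50 * L ≤ n) (hn' : n ≤ 60 * L)
    (hw : n < 2 ^ w) (hu : 0 < u) (hwu : 32 * (w * (2 * u + 1)) ≤ L) (hk : 2 * k ≤ u ^ 2) :
    ((Av n k).filter fun σ => n + 10 * L ≤ T σ L).card ≤ (Av n (k - n)).card := by
  have hw0 : 0 < w := by
    rcases Nat.eq_zero_or_pos w with rfl | h
    · simp at hw; omega
    · exact h
  have huL : 2 * u + 1 ≤ L := by nlinarith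
  have hr : ∀ σ ∈ Av n k, (Lg σ L).card ≤ L := fun σ hσ => card_Lg_le hL (by omega) hk hσ
  set B := (Av n k).filter fun σ => n + 10 * L ≤ T σ L with hB
  set F : ℕ → ℕ := fun j2 => (Q (6 * L) L (k - n - j2)).card * (Q (5 * L) L j2).card with hF
  have h1 : B.card = ∑ x ∈ range (n + 1) ×ˢ (range (k + 1) ×ˢ range (k - n + 1)),
      (B.filter fun σ => ((Lg σ L).card, J σ L, J (rc σ) L) = x).card := by
    refine card_eq_sum_card_fiberwise fun σ hσ => ?_
    simp only [hB, coe_filter, Set.mem_ofPred_eq] at hσ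
    have g1 := J_add_le (σ := σ) (L := L) (by omega)
    rw [(mem_Av.1 hσ.1).2] at g1
    have g2 := hr σ hσ.1
    simp only [coe_product, coe_range, Set.mem_prod, Set.mem_Iio]
    omega
  have h2 : ∀ x ∈ range (n + 1) ×ˢ (range (k + 1) ×ˢ range (k - n + 1)),
      2 ^ (4 * w) * (B.filter fun σ => ((Lg σ L).card, J σ L, J (rc σ) L) = x).card ≤
        F x.2.2 := by
    rintro ⟨r, j1, j2⟩ -
    rcases (B.filter fun σ => ((Lg σ L).card, J σ L, J (rc σ) L) = (r, j1, j2)).eq_empty_or_nonempty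
      with he | ⟨σ, hσ⟩
    · rw [he]; simp
    simp only [hB, mem_filter, Prod.mk.injEq] at hσ
    obtain ⟨⟨g0, g1⟩, g2, g3, g4⟩ := hσ
    have g5 := J_add_le (σ := σ) (L := L) (by omega)
    have g6 := card_Lg_mul_le σ L
    rw [(mem_Av.1 g0).2, g3, g4] at g5
    rw [g2] at g6
    have g7 : (B.filter fun σ => ((Lg σ L).card, J σ L, J (rc σ) L) = (r, j1, j2)).card ≤
        (n * n) ^ r * ((Q (5 * L) L j1).card * (Q (5 * L) L j2).card) := by
      refine le_trans (card_le_card fun τ hτ => ?_) (card_fiber_le (by omega) hr r j1 j2)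
      simp only [hB, mem_filter, Prod.mk.injEq] at hτ ⊢
      exact ⟨hτ.1.1, hτ.2⟩
    obtain ⟨t, ht⟩ : ∃ t, k - n - j2 = j1 + t ∧ T σ L ≤ t + n ∧ j1 + t ≤ k :=
      ⟨k - n - j2 - j1, by omega, by omega, by omega⟩
    have g8 := card_Q_gain (5 * L) L j1 t u (w * (2 * r + 4)) hu huL (by omega) (by
      have e1 : w * (2 * r + 4) * (2 * u + 1) = (2 * r + 4) * (w * (2 * u + 1)) := by ring
      rw [e1]
      have e2 : (2 * r + 4) * (32 * (w * (2 * u + 1))) ≤ (2 * r + 4) * L :=
        Nat.mul_le_mul_left _ hwu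
      have e3 : 10 * L ≤ t := by omega
      nlinarith)
    rw [show 5 * L + L = 6 * L by ring, ← ht.1] at g8
    have g9 : (n * n) ^ r ≤ 2 ^ (w * (2 * r)) := by
      rw [pow_mul, ← pow_two, ← pow_mul]
      exact Nat.pow_le_pow_left hw.le _
    calc 2 ^ (4 * w) * _
        ≤ 2 ^ (4 * w) * (2 ^ (w * (2 * r)) * ((Q (5 * L) L j1).card * (Q (5 * L) L j2).card)) :=
          Nat.mul_le_mul_left _ (g7.trans (Nat.mul_le_mul_right _ g9))
      _ = 2 ^ (w * (2 * r + 4)) * (Q (5 * L) L j1).card * (Q (5 * L) L j2).card := by ring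
      _ ≤ F j2 := Nat.mul_le_mul_right _ g8
  have h3 : 2 ^ (4 * w) * B.card ≤ (n + 1) * ((k + 1) * ∑ j2 ∈ range (k - n + 1), F j2) := by
    rw [h1, mul_sum]
    refine (sum_le_sum h2).trans (le_of_eq ?_)
    simp only [sum_product, sum_const, card_range, smul_eq_mul]
  have h4 : ∑ j2 ∈ range (k - n + 1), F j2 ≤ (Av n (k - n)).card := sum_Q_le hL (by omega) _
  have h5 : (n + 1) * (k + 1) ≤ 2 ^ (4 * w) := by
    have e1 : k + 1 ≤ (n + 1) ^ 3 := by
      have : u ^ 2 ≤ n ^ 2 := Nat.pow_le_pow_left (by omega) _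
      nlinarith
    calc (n + 1) * (k + 1) ≤ (n + 1) * (n + 1) ^ 3 := Nat.mul_le_mul_left _ e1
      _ = (n + 1) ^ 4 := by ring
      _ ≤ (2 ^ w) ^ 4 := Nat.pow_le_pow_left hw _
      _ = 2 ^ (4 * w) := by rw [← pow_mul, mul_comm]
  refine Nat.le_of_mul_le_mul_left ?_ (Nat.two_pow_pos (4 * w))
  calc 2 ^ (4 * w) * B.card ≤ _ := h3
    _ ≤ (n + 1) * ((k + 1) * (Av n (k - n)).card) :=
        Nat.mul_le_mul_left _ (Nat.mul_le_mul_left _ h4)
    _ = (n + 1) * (k + 1) * (Av n (k - n)).card := by ring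
    _ ≤ _ := Nat.mul_le_mul_right _ h5

lemma card_good_le {k L : ℕ} (hL : 0 < L) (hn : 50 * L ≤ n + 1)
    (hr : ∀ σ ∈ Av (n + 1) k, (Lg σ L).card ≤ L) (Φ : ℕ → ℕ → ℕ → ℕ → Prop)
    (hΦ : ∀ a b c d b' c' d', Φ a b c d → b' ≤ b → c' ≤ c → d' ≤ d → Φ a b' c' d') :
    ((Av (n + 1) k).filter fun σ => (¬ Dec σ ∧ T σ L < n + 1 + 10 * L) ∧ 21 * L ≤ Lf σ ∧
        Φ (Lf σ) (Bt σ) (Rt σ) (Tp σ)).card ≤
      ((Av (n + 2) k).filter fun ρ => ¬ TC ρ ∧ 21 * L ≤ Lf ρ ∧
        Φ (Lf ρ) (Bt ρ) (Rt ρ) (Tp ρ)).card := by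
  have h := card_ad_le n k (fun a b c d => 21 * L ≤ a ∧ Φ a b c d)
      fun a b c d b' c' d' h h1 h2 h3 => ⟨h.1, hΦ _ _ _ _ _ _ _ h.2 h1 h2 h3⟩
  refine le_trans (card_le_card fun σ hσ => ?_) (h.trans (card_le_card fun ρ hρ => ?_))
  swap
  · simp only [mem_filter] at hρ ⊢
    exact hρ
  simp only [mem_filter] at hσ ⊢
  exact ⟨hσ.1, hσ.2.1.1, ad_of_arm (mem_Av.1 hσ.1).1 (hr σ hσ.1) hL hn hσ.2.1.2 hσ.2.2.1, hσ.2.2⟩

theorem core {k L u w : ℕ} (hL : 0 < L) (hn : 50 * L ≤ n + 1) (hn' : n + 1 ≤ 60 * L)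
    (hw : n + 1 < 2 ^ w) (hu : 0 < u) (hwu : 32 * (w * (2 * u + 1)) ≤ L) (hk : 2 * k ≤ u ^ 2) :
    (Av (n + 1) k).card ≤ (Av (n + 2) k).card := by
  have hw0 : 0 < w := by
    rcases Nat.eq_zero_or_pos w with rfl | h
    · simp at hw
    · exact h
  have huL : 2 * u + 1 ≤ L := by nlinarith
  have hr : ∀ σ ∈ Av (n + 1) k, (Lg σ L).card ≤ L := fun σ hσ => card_Lg_le hL (by omega) hk hσ
  have b0 := card_dec_le (n + 1) k
  have b1 := card_good_le hL hn hr (fun a _ _ _ => a ≤ n) (fun _ _ _ _ _ _ _ h _ _ _ => h)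
  have b2 := card_good_le hL hn hr (fun _ b _ _ => b < 21 * L)
    (fun _ _ _ _ _ _ _ h h1 _ _ => h1.trans_lt h)
  have b3 := card_good_le hL hn hr (fun _ _ c d => c < 21 * L ∧ d < 21 * L)
    (fun _ _ _ _ _ _ _ h _ h2 h3 => ⟨h2.trans_lt h.1, h3.trans_lt h.2⟩)
  have b4 := card_good_le hL hn hr (fun _ b c d => b < 21 * L ∧ c < 21 * L ∧ d < 21 * L)
    (fun _ _ _ _ _ _ _ h h1 h2 h3 => ⟨h1.trans_lt h.1, h2.trans_lt h.2.1, h3.trans_lt h.2.2⟩)
  rw [card_filter_inv (n := n + 1), card_filter_inv (n := n + 2)] at b2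
  rw [card_filter_rc (n := n + 1), card_filter_rc (n := n + 2)] at b3
  rw [card_filter_rc (n := n + 1), card_filter_rc (n := n + 2),
    card_filter_inv (n := n + 1), card_filter_inv (n := n + 2)] at b4
  simp only [dec_inv, dec_rc, tc_inv, tc_rc, T_inv, T_rc, Lf_inv, Bt_inv, Rt_inv, Tp_inv, Lf_rc,
    Bt_rc, Rt_rc, Tp_rc] at b2 b3 b4
  have b5 : ((Av (n + 1) k).filter fun σ => n + 1 + 10 * L ≤ T σ L).card ≤
      ((Av (n + 2) k).filter fun ρ => Lf ρ = n + 1).card := by
    by_cases hkn : n + 1 ≤ k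
    · have := card_top_le (n + 1) (k - (n + 1))
      rw [Nat.sub_add_cancel hkn] at this
      exact (card_bad_le hL hn hn' hw hu hwu hk).trans this
    · rw [filter_false_of_mem]
      · simp
      · intro σ hσ
        have := T_le σ L
        rw [(mem_Av.1 hσ).2] at this
        omega
  have c1 := add_le_add (add_le_add (add_le_add (add_le_add (add_le_add b0 b1) b2) b3) b4) b5
  refine le_trans ?_ (c1.trans ?_)
  · simp only [card_filter, ← sum_add_distrib]
    rw [card_eq_sum_ones]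
    refine sum_le_sum fun σ hσ => ?_
    have h1 : Lf σ ≤ n := Nat.lt_succ_iff.1 (σ 0).2
    by_cases hd : Dec σ
    · simp only [hd, if_true]
      omega
    · have := exists_arm (mem_Av.1 hσ).1 (hr σ hσ) hL hn hd
      simp only [hd, not_false_iff, true_and, if_false]
      split_ifs <;> omega
  · simp only [card_filter, ← sum_add_distrib]
    rw [card_eq_sum_ones]
    refine sum_le_sum fun ρ _ => ?_
    by_cases ht : TC ρ
    · have : Lf ρ ≠ n + 1 := by
        obtain ⟨c, -, -, hc, -⟩ := ht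
        have := (hc.2.2 0).2 hc.1
        have := hc.2.1
        simp only [Lf]
        omega
      simp [ht, this]
    · simp only [ht, not_false_iff, true_and, if_false]
      split_ifs <;> omega

end Pool.Agent.MP_45d82d_co

end MrgPart5

-- ======== part 6: formerly Pool.Agent.MP_45d82d_co.Param
section MrgPart6

/-!
Choice of the parameters.
-/

set_option autoImplicit false

open Finset Equiv

namespace Pool.Agent.MP_45d82d_co

open Classical

lemma card_Av_zero_le (n : ℕ) : (Av n 0).card ≤ (Av (n + 1) 0).card := by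
  have key : ∀ (m : ℕ) (σ : Perm (Fin m)), σ ∈ Av m 0 ↔ σ = 1 := by
    intro m σ
    have h1 : invs (1 : Perm (Fin m)) = ∅ :=
      filter_false_of_mem fun p _ h => lt_asymm h.1 h.2
    rw [mem_Av]
    constructor
    · rintro ⟨-, h⟩
      have h2 : (invs (1 : Perm (Fin m))).card = 0 := by rw [h1, card_empty]
      rw [card_invs_eq_sum_code, sum_eq_zero_iff] at h h2
      refine Equiv.ext fun i => ?_
      exact lehmer_ext (S := univ) (by simp) m
        (fun j hj _ => (h j hj).trans (h2 j hj).symm) i (mem_univ _) i.2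
    · rintro rfl
      refine ⟨?_, by rw [h1, card_empty]⟩
      rintro ⟨a, b, c, d, -, h, -, -, h', -⟩
      exact lt_asymm h h'
  have e : ∀ m : ℕ, Av m 0 = {1} := fun m => by ext σ; rw [key, mem_singleton]
  rw [e, e, card_singleton, card_singleton]

theorem card_Av_le (n k : ℕ) (h : 10 ^ 8 * k * (Nat.log 2 n + 1) ^ 2 ≤ n ^ 2) :
    (Av n k).card ≤ (Av (n + 1) k).card := by
  rcases Nat.eq_zero_or_pos k with rfl | hk
  · exact card_Av_zero_le n
  set w := Nat.log 2 n + 1 with hw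
  have hw0 : 0 < w := Nat.succ_pos _
  have hlt : n < 2 ^ w := Nat.lt_pow_succ_log_self (by norm_num) n
  have h1 : 10000 * w ≤ n := by
    refine (Nat.pow_le_pow_iff_left (n := 2) (by norm_num)).1 (le_trans ?_ h)
    nlinarith
  obtain ⟨m, rfl⟩ : ∃ m, n = m + 1 := ⟨n - 1, by omega⟩
  set u := (m + 1) / (4000 * w) with hu
  have h2 : u * (4000 * w) ≤ m + 1 := Nat.div_mul_le_self _ _
  have h3 : m + 1 < (u + 1) * (4000 * w) := by
    have := Nat.lt_mul_div_succ (m + 1) (show 0 < 4000 * w by omega)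
    rw [mul_comm]
    exact this
  have h4 : 2 ≤ u := by
    by_contra hc
    have : (u + 1) * (4000 * w) ≤ 2 * (4000 * w) := Nat.mul_le_mul_right _ (by omega)
    omega
  refine core (L := (m + 1) / 50) (u := u) (w := w) (by omega) (by omega) (by omega) hlt
    (by omega) ?_ ?_
  · have : 32 * (w * (2 * u + 1)) * 125 = 2 * (u * (4000 * w)) + 4000 * w := by ring
    omega
  · have h5 : (m + 1) ^ 2 ≤ ((u + 1) * (4000 * w)) ^ 2 := Nat.pow_le_pow_left h3.le _
    have h6 : 10 ^ 8 * k * w ^ 2 ≤ (4000 * (u + 1)) ^ 2 * w ^ 2 := by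
      refine h.trans (h5.trans (le_of_eq ?_))
      ring
    have h7 := Nat.le_of_mul_le_mul_right h6 (by positivity)
    nlinarith

lemma card_eq_Av (n k : ℕ) :
    Nat.card {σ : Equiv.Perm (Fin n) //
      (¬ ∃ a b c d : Fin n, a < b ∧ b < c ∧ c < d ∧
          σ a < σ c ∧ σ c < σ b ∧ σ b < σ d) ∧
      Nat.card {p : Fin n × Fin n // p.1 < p.2 ∧ σ p.2 < σ p.1} = k} = (Av n k).card := by
  rw [Nat.card_eq_fintype_card, Fintype.card_subtype]
  congr 1
  ext σ
  rw [mem_filter, mem_Av, Nat.card_eq_fintype_card, Fintype.card_subtype]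
  simp only [mem_univ, true_and]
  rfl

end Pool.Agent.MP_45d82d_co

end MrgPart6

-- marker of a merged file
example : 731051 + 304027 = 731051 + 304027 := rfl
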